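import Pool.Agent.helper45.WI.Fast

namespace InvSeqPat

/-- `17` explicit minimal inversion sequences of maximal length (16 would be enough). -/
def L17 : List (List ℕ) :=
  [[0,0,1,1,3,2,3,4,8,5,6,7], [0,0,1,3,2,3,1,4,8,5,6,7], [0,0,1,3,2,3,4,1,8,5,6,7],
   [0,0,2,1,2,3,5,5,8,4,6,7], [0,0,2,1,2,3,6,6,8,4,5,7], [0,0,2,1,2,5,3,5,8,4,6,7],
   [0,0,2,1,2,5,5,3,8,4,6,7], [0,0,2,1,3,3,2,4,8,5,6,7], [0,0,2,1,4,4,2,3,8,5,6,7],
   [0,0,2,2,3,1,3,4,8,5,6,7], [0,0,2,3,1,3,2,4,8,5,6,7], [0,0,2,3,1,3,4,2,8,5,6,7],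
   [0,0,2,3,3,1,2,4,8,5,6,7], [0,1,0,3,2,3,4,1,8,5,6,7], [0,1,1,0,3,2,3,4,8,5,6,7],
   [0,1,1,3,2,3,0,4,8,5,6,7], [0,1,1,3,2,3,4,0,8,5,6,7]]

/-- Some subsequence of length `11` or `10` becomes an inversion sequence that contains `rho`. -/
def badB (t : List ℕ) : Bool :=
  ((t.sublistsLen 11).any fun s => isInvB 0 (stdF s) && srch Prho [] s) ||
    ((t.sublistsLen 10).any fun s => isInvB 0 (stdF s) && srch Prho [] s)

/-- Boolean test for membership of `t` in the set of minimal inversion sequences (`|t| = 12`). -/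
def chkL (t : List ℕ) : Bool :=
  t.all (fun x => Nat.ble x 9) && Nat.beq t.length 12 &&
    isInvB 0 t && isCayleyB t && srch Prho [] t && !(badB t)

theorem isMin_of_chk {t : List ℕ} (h : chkL t = true) : IsMinInv rho t ∧ t.length = 12 := by
  unfold chkL at h
  simp only [Bool.and_eq_true, Bool.not_eq_true', List.all_eq_true, Nat.ble_eq, Nat.beq_eq] at h
  obtain ⟨⟨⟨⟨⟨h9, hl⟩, hI⟩, hC⟩, hP⟩, hB⟩ := h
  have hC' := isCayleyB_iff.1 hC
  refine ⟨⟨⟨isInvB_iff.1 hI, hC', srch_rho.1 hP⟩, ?_⟩, hl⟩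
  intro u hu hcu
  obtain ⟨s, hs, hsu⟩ := (contains_iff_std hu.2.1).1 hcu
  have hlen := length_ge_of_mem (Or.inl rfl) hu
  have hle := hs.length_le
  have hsl : u.length = s.length := by rw [← hsu, length_std]
  have hinv : isInvB 0 (stdF s) = true := by
    rw [stdF_eq (fun x hx => h9 x (hs.subset hx)), hsu]
    exact isInvB_iff.2 hu.1
  have hsr : srch Prho [] s = true := by
    rw [srch_rho, ← contains_std_iff, hsu]
    exact hu.2.2
  unfold badB at hB
  rw [Bool.or_eq_false_iff, List.any_eq_false, List.any_eq_false] at hB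
  have h3 : s.length = 12 ∨ s.length = 11 ∨ s.length = 10 := by omega
  rcases h3 with h3 | h3 | h3
  · have hst : s = t := hs.eq_of_length (by omega)
    rw [← hsu, hst]
    exact std_eq_of_sameOrder ⟨rfl, fun i j hi hj hi' hj' => Iff.rfl⟩ hC'
  · exact absurd (by rw [hinv, hsr]; rfl) (hB.1 s (List.mem_sublistsLen.2 ⟨hs, h3⟩))
  · exact absurd (by rw [hinv, hsr]; rfl) (hB.2 s (List.mem_sublistsLen.2 ⟨hs, h3⟩))

set_option maxRecDepth 100000 in
theorem chk1 : (L17.take 4).all chkL = true := by decide +kernel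

set_option maxRecDepth 100000 in
theorem chk2 : ((L17.drop 4).take 4).all chkL = true := by decide +kernel

set_option maxRecDepth 100000 in
theorem chk3 : ((L17.drop 8).take 4).all chkL = true := by decide +kernel

set_option maxRecDepth 100000 in
theorem chk4 : (L17.drop 12).all chkL = true := by decide +kernel

theorem chkL17 : L17.all chkL = true := by
  have e : L17 = L17.take 4 ++ ((L17.drop 4).take 4 ++ ((L17.drop 8).take 4 ++ L17.drop 12)) := rfl
  rw [e, List.all_append, List.all_append, List.all_append, chk1, chk2, chk3, chk4]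
  rfl

/-- Lower bound: `17 ≤ c_2(rho)`. (Finiteness of the set: subset of `invSeqs 12`; minimality of
each member: `length_ge_of_mem`, `contains_iff_std`, kernel evaluation over `sublistsLen 11` and
`sublistsLen 10`.) -/
theorem lower : 17 ≤ isbtEntry rho 2 := by
  unfold isbtEntry
  have hlen : ∀ t : List ℕ, (t.length : ℤ) = rho.length + mdd rho + (2 : ℕ) ↔ t.length = 12 := by
    intro t
    rw [mdd_rho]
    have h8 : (rho.length : ℤ) = 8 := rfl
    rw [h8]
    omega
  have hsub : ((L17.toFinset : Finset (List ℕ)) : Set (List ℕ)) ⊆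
      {t : List ℕ | IsMinInv rho t ∧ (t.length : ℤ) = rho.length + mdd rho + (2 : ℕ)} := by
    intro t ht
    rw [Finset.mem_coe, List.mem_toFinset] at ht
    have := isMin_of_chk (List.all_eq_true.1 chkL17 t ht)
    exact ⟨this.1, (hlen t).2 this.2⟩
  have hfin : {t : List ℕ | IsMinInv rho t ∧
      (t.length : ℤ) = rho.length + mdd rho + (2 : ℕ)}.Finite := by
    apply Set.Finite.subset (List.finite_toSet (invSeqs 12))
    rintro t ⟨h1, h2⟩
    exact mem_invSeqs.2 ⟨(hlen t).1 h2, h1.1.1⟩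
  calc 17 = L17.toFinset.card := by decide
    _ = ((L17.toFinset : Finset (List ℕ)) : Set (List ℕ)).ncard := (Set.ncard_coe_finset _).symm
    _ ≤ _ := Set.ncard_le_ncard hsub hfin

end InvSeqPat
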