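import Pool.Agent.helper45.WI.Std

/-! Unused letters of a minimal inversion sequence. -/

namespace InvSeqPat

/-- The last unused letter of an embedding. -/
theorem split_last : ∀ (t e : List ℕ), e.Sublist t → e.length < t.length →
    ∃ (X : List ℕ) (u : ℕ) (Y e0 : List ℕ), t = X ++ u :: Y ∧ e = e0 ++ Y ∧ e0.Sublist X := by
  intro t
  induction t using List.reverseRecOn with
  | nil => intro e _ h; simp at h
  | append_singleton t a ih =>
    intro e he hlen
    obtain ⟨l1, l2, rfl, h1, h2⟩ := List.sublist_append_iff.1 he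
    rcases List.sublist_cons_iff.1 h2 with h2 | ⟨r, hr1, hr2⟩
    · have : l2 = [] := List.sublist_nil.1 h2
      subst this
      exact ⟨t, a, [], l1, by simp, by simp, h1⟩
    · have hr : r = [] := List.sublist_nil.1 hr2
      subst hr
      subst hr1
      have : l1.length < t.length := by simpa using hlen
      obtain ⟨X, u, Y, e0, h3, h4, h5⟩ := ih l1 h1 this
      exact ⟨X, u, Y ++ [a], e0, by rw [h3]; simp, by rw [h4]; simp, h5⟩

/-- A sublist that avoids the letter `v` survives its removal. -/
theorem sublist_remove {e A C : List ℕ} {v : ℕ} (h : e.Sublist (A ++ v :: C)) (hv : v ∉ e) :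
    e.Sublist (A ++ C) := by
  obtain ⟨l1, l2, rfl, h1, h2⟩ := List.sublist_append_iff.1 h
  rcases List.sublist_cons_iff.1 h2 with h2 | ⟨r, rfl, h2⟩
  · exact h1.append h2
  · exact absurd (by simp) hv

theorem contains_std_of_contains {r p : List ℕ} (h : Contains r p) : Contains (std r) p := by
  obtain ⟨e, he, ho⟩ := h
  refine ⟨e.map (rk r), he.map _, SameOrder.trans ⟨by simp, ?_⟩ ho⟩
  intro i j hi hj hi' hj'
  simp only [List.getElem_map]
  exact rk_lt_iff (he.subset (List.getElem_mem hi'))

variable {t : List ℕ}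

theorem rk_le (l : List ℕ) (x : ℕ) : rk l x ≤ x := by
  rw [rk_eq_card]
  calc (l.toFinset.filter (· < x)).card ≤ (Finset.range x).card := by
        apply Finset.card_le_card
        intro a ha
        rw [Finset.mem_filter] at ha
        exact Finset.mem_range.2 ha.2
    _ = x := Finset.card_range x

theorem rk_le_of_notMem {l : List ℕ} {u x : ℕ} (hu : u ∉ l) (hx : u < x) : rk l x + 1 ≤ x := by
  rw [rk_eq_card]
  have h1 : l.toFinset.filter (· < x) ⊆ (Finset.range x).erase u := by
    intro a ha
    rw [Finset.mem_filter] at ha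
    rw [Finset.mem_erase]
    refine ⟨fun h => hu ?_, Finset.mem_range.2 ha.2⟩
    rw [← h]; exact List.mem_toFinset.1 ha.1
  have h2 := Finset.card_le_card h1
  rw [Finset.card_erase_of_mem (Finset.mem_range.2 hx), Finset.card_range] at h2
  omega

/-- Positions behind a removed letter. -/
theorem getElem_removed {X Y : List ℕ} {u : ℕ} (i : ℕ) (hi : i < (X ++ Y).length) :
    (i < X.length ∧ ∃ h : i < (X ++ u :: Y).length, (X ++ Y)[i] = (X ++ u :: Y)[i]) ∨
    (X.length ≤ i ∧ ∃ h : i + 1 < (X ++ u :: Y).length, (X ++ Y)[i] = (X ++ u :: Y)[i + 1]) := by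
  rcases lt_or_ge i X.length with h | h
  · left
    refine ⟨h, by simp; omega, ?_⟩
    rw [List.getElem_append_left h, List.getElem_append_left h]
  · right
    refine ⟨h, by simp at hi ⊢; omega, ?_⟩
    rw [List.getElem_append_right h, List.getElem_append_right (by omega)]
    have : i + 1 - X.length = (i - X.length) + 1 := by omega
    simp only [this, List.getElem_cons_succ]

/-- (a) an unused letter is not the only one with its value. -/
theorem key_a {p : List ℕ} (h : IsMinInv p t) {X Y : List ℕ} {u : ℕ} (ht : t = X ++ u :: Y)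
    (hc : Contains (X ++ Y) p) : u ∈ X ++ Y := by
  by_contra hu
  have hinv : IsInv (X ++ u :: Y) := ht ▸ h.1.1
  have huX : u ≤ X.length := by
    have := hinv X.length (by simp)
    simpa using this
  have h1 : std (X ++ Y) ∈ IP p := by
    refine ⟨?_, isCayley_std _, contains_std_of_contains hc⟩
    intro i hi
    rw [getElem_std]
    rw [length_std] at hi
    rcases getElem_removed (u := u) i hi with ⟨h2, h3, h4⟩ | ⟨h2, h3, h4⟩
    · rw [h4]
      exact (rk_le _ _).trans (hinv i h3)
    · rw [h4]
      have h5 := hinv (i + 1) h3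
      rcases Nat.lt_or_ge u ((X ++ u :: Y)[i + 1]) with h6 | h6
      · have := rk_le_of_notMem hu h6
        omega
      · exact (rk_le _ _).trans (by omega)
  have h2 := h.2 _ h1 ⟨X ++ Y, by rw [ht]; exact List.Sublist.append_left (List.sublist_cons_self _ _) _,
    sameOrder_std _⟩
  have h3 := congrArg List.length h2
  rw [length_std, ht] at h3
  simp at h3

/-- (b) behind an unused letter there is a letter on the diagonal. -/
theorem key_b {p : List ℕ} (h : IsMinInv p t) {X Y : List ℕ} {u : ℕ} (ht : t = X ++ u :: Y)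
    (hc : Contains (X ++ Y) p) :
    ∃ (j : ℕ) (hj : j < Y.length), Y[j] = X.length + 1 + j := by
  by_contra hcon
  push Not at hcon
  have hinv : IsInv (X ++ u :: Y) := ht ▸ h.1.1
  have hcay : IsCayley (X ++ u :: Y) := ht ▸ h.1.2.1
  have hu := key_a h ht hc
  have hmem : ∀ x, x ∈ X ++ Y ↔ x ∈ X ++ u :: Y := by
    intro x
    simp only [List.mem_append, List.mem_cons] at hu ⊢
    constructor
    · tauto
    · rintro (h1 | rfl | h1)
      · exact Or.inl h1
      · exact hu
      · exact Or.inr h1
  have h1 : X ++ Y ∈ IP p := by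
    refine ⟨?_, ?_, hc⟩
    · intro i hi
      rcases getElem_removed (u := u) i hi with ⟨h2, h3, h4⟩ | ⟨h2, h3, h4⟩
      · rw [h4]; exact hinv i h3
      · have h5 := hinv (i + 1) h3
        rw [← h4] at h5
        rcases Nat.lt_or_ge ((X ++ Y)[i]) (i + 1) with h6 | h6
        · omega
        · exfalso
          have h7 : (X ++ Y)[i] = i + 1 := by omega
          rw [List.getElem_append_right h2] at h7
          exact hcon (i - X.length) (by simp at hi; omega) (by rw [h7]; omega)
    · intro x hx y hy
      rw [hmem] at hx ⊢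
      exact hcay x hx y hy
  have h2 := h.2 _ h1 ⟨X ++ Y, by rw [ht]; exact List.Sublist.append_left (List.sublist_cons_self _ _) _,
    ⟨rfl, fun _ _ _ _ _ _ => Iff.rfl⟩⟩
  have h3 := congrArg List.length h2
  rw [ht] at h3
  simp at h3

/-- The sum of the multiplicities over a set of values is at most the length. -/
theorem sum_count_le (N : Finset ℕ) (U : List ℕ) : ∑ v ∈ N, U.count v ≤ U.length := by
  induction U with
  | nil => simp
  | cons a U ih =>
    have : ∀ v, (a :: U).count v = U.count v + if a = v then 1 else 0 := by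
      intro v
      rw [List.count_cons]
      simp
    simp only [this, Finset.sum_add_distrib, List.length_cons]
    have h2 : ∑ v ∈ N, (if a = v then 1 else 0) ≤ 1 := by
      rw [Finset.sum_ite_eq]
      split_ifs <;> omega
    omega

/-- The general structure: `t = X ++ q :: Y2` with `|X| = q`, the embedding `e` uses `q` and all
of `Y2`. -/
theorem struct_gen {p : List ℕ} (h : IsMinInv p t) (hlen : p.length + 4 = t.length) :
    ∃ (X Y2 e1 U : List ℕ) (q : ℕ), t = X ++ q :: Y2 ∧ X.length = q ∧ e1.Sublist X ∧
      X.Perm (e1 ++ U) ∧ U.length = 4 ∧ SameOrder (e1 ++ q :: Y2) p ∧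
      (∀ v, v < q → v ∉ e1 ++ q :: Y2 → v ∈ X ∧ 2 ≤ U.count v) := by
  obtain ⟨e, he, ho⟩ := h.1.2.2
  have hel : e.length = p.length := ho.1
  obtain ⟨X0, u, Y0, e0, h1, h2, h3⟩ := split_last t e he (by omega)
  have hc : Contains (X0 ++ Y0) p := ⟨e, by rw [h2]; exact h3.append (List.Sublist.refl _), ho⟩
  obtain ⟨j, hj, hq⟩ := key_b h h1 hc
  set q := X0.length + 1 + j with hqdef
  have hY : Y0 = Y0.take j ++ q :: Y0.drop (j + 1) := by
    conv_lhs => rw [← List.take_append_drop j Y0, List.drop_eq_getElem_cons hj, hq]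
  set Y1 := Y0.take j with hY1
  set Y2 := Y0.drop (j + 1) with hY2
  have hY1l : Y1.length = j := by rw [hY1, List.length_take]; omega
  have hXl : (X0 ++ u :: Y1).length = q := by simp [hY1l]; omega
  have ht : t = (X0 ++ u :: Y1) ++ q :: Y2 := by rw [h1, hY]; simp
  have he1 : e = (e0 ++ Y1) ++ q :: Y2 := by rw [h2, hY]; simp
  have hsub : (e0 ++ Y1).Sublist (X0 ++ u :: Y1) := h3.append (List.sublist_cons_self _ _)
  obtain ⟨U, hU⟩ := hsub.exists_perm_append
  have hUl : U.length = 4 := by
    have ha := hU.length_eq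
    have hb := congrArg List.length ht
    have hcc := congrArg List.length he1
    simp only [List.length_append, List.length_cons] at ha hb hcc
    omega
  refine ⟨X0 ++ u :: Y1, Y2, e0 ++ Y1, U, q, ht, hXl, hsub, hU, hUl, he1 ▸ ho, ?_⟩
  intro v hv hve
  have hcay : IsCayley t := h.1.2.1
  have hvt : v ∈ t := hcay q (by rw [ht]; simp) v hv
  have hvY : v ∉ q :: Y2 := fun h' => hve (List.mem_append_right _ h')
  have hvX : v ∈ X0 ++ u :: Y1 := by
    rw [ht] at hvt
    rcases List.mem_append.1 hvt with h' | h'
    · exact h'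
    · exact absurd h' hvY
  refine ⟨hvX, ?_⟩
  obtain ⟨A, B, hAB⟩ := List.append_of_mem hvX
  have ht2 : t = A ++ v :: (B ++ q :: Y2) := by rw [ht, hAB]; simp
  have hve' : v ∉ e := by rw [he1]; exact hve
  have hc2 : Contains (A ++ (B ++ q :: Y2)) p :=
    ⟨e, sublist_remove (by rw [← ht2]; exact he) hve', ho⟩
  have h4 := key_a h ht2 hc2
  have h5 : v ∈ A ++ B := by
    rcases List.mem_append.1 h4 with h' | h'
    · exact List.mem_append_left _ h'
    · rcases List.mem_append.1 h' with h'' | h''
      · exact List.mem_append_right _ h''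
      · exact absurd h'' hvY
  have h6 : 1 ≤ (A ++ B).count v := List.count_pos_iff.2 h5
  have h7 : (X0 ++ u :: Y1).count v = (A ++ B).count v + 1 := by
    rw [hAB, List.count_append, List.count_cons_self, List.count_append]; omega
  have h8 : (X0 ++ u :: Y1).count v = (e0 ++ Y1).count v + U.count v := by
    rw [hU.count_eq v, List.count_append]
  have h9 : (e0 ++ Y1).count v = 0 :=
    List.count_eq_zero.2 (fun h' => hve (List.mem_append_left _ h'))
  omega

end InvSeqPat
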