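import Pool.Agent.helper45.WI.Check
import Pool.Agent.helper45.WI.StructA

namespace InvSeqPat

theorem mem_compl8 {X : List ℕ} {v : ℕ} : v ∈ compl8 X ↔ v < 8 ∧ v ∉ X := by
  unfold compl8
  rw [List.mem_filter]
  simp

theorem pairwise_compl8 (X : List ℕ) : (compl8 X).Pairwise (· < ·) :=
  List.pairwise_lt_range.filter _

/-- The index of the diagonal letter is `4`. -/
theorem key_index : ∀ i < 8, i + 4 ≤ rho'.getD i 0 + 2 → i = 4 := by decide

theorem compl8_eq {X : List ℕ} {c0 c1 c2 : ℕ} (hc01 : c0 < c1) (hc12 : c1 < c2) (hc28 : c2 < 8)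
    (hcX : ∀ v ∈ [c0, c1, c2], v ∉ X) (hall : ∀ v < 8, v ∈ X ∨ v ∈ [c0, c1, c2]) :
    compl8 X = [c0, c1, c2] := by
  apply List.Perm.eq_of_pairwise' (r := (· < ·)) (pairwise_compl8 X)
  · simp only [List.pairwise_cons, List.mem_cons, List.not_mem_nil, or_false, forall_eq_or_imp,
      forall_eq, List.Pairwise.nil, and_true, IsEmpty.forall_iff, implies_true]
    omega
  · rw [List.perm_ext_iff_of_nodup]
    · intro v
      rw [mem_compl8]
      constructor
      · rintro ⟨h1, h2⟩
        exact (hall v h1).resolve_left h2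
      · intro h1
        refine ⟨?_, hcX v h1⟩
        simp only [List.mem_cons, List.not_mem_nil, or_false] at h1
        omega
    · exact (pairwise_compl8 X).imp (fun h => h.ne)
    · simp; omega

theorem count_four {b c d v : ℕ} (hca : c < b) (had : b < d) : [b, b, c, d].count v ≤ 2 := by
  simp only [List.count_cons, List.count_nil, beq_iff_eq]
  split_ifs <;> omega

theorem not_mem_four {b c d c0 c1 c2 v : ℕ} (hca : c < b) (had : b < d) (hdc : d < c0)
    (hc01 : c0 < c1) (hc12 : c1 < c2) (hv : v ∈ [c0, c1, c2]) : v ∉ [b, b, c, d] := by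
  intro h
  simp only [List.mem_cons, List.not_mem_nil, or_false] at h hv
  omega

/-- The numerical consequences of `SameOrder`. -/
theorem order_facts {b a c d c0 c1 c2 : ℕ}
    (ho : SameOrder [b, a, c, d, 8, c0, c1, c2] rho') :
    a = b ∧ c < b ∧ b < d ∧ d < c0 ∧ c0 < c1 ∧ c1 < c2 ∧ c2 < 8 := by
  have h01 := ho.2 0 1 (by simp) (by simp) (by decide) (by decide)
  have h10 := ho.2 1 0 (by simp) (by simp) (by decide) (by decide)
  have h20 := ho.2 2 0 (by simp) (by simp) (by decide) (by decide)
  have h03 := ho.2 0 3 (by simp) (by simp) (by decide) (by decide)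
  have h35 := ho.2 3 5 (by simp) (by simp) (by decide) (by decide)
  have h56 := ho.2 5 6 (by simp) (by simp) (by decide) (by decide)
  have h67 := ho.2 6 7 (by simp) (by simp) (by decide) (by decide)
  have h74 := ho.2 7 4 (by simp) (by simp) (by decide) (by decide)
  clear ho
  simp only [rho', List.getElem_cons_zero, List.getElem_cons_succ] at h01 h10 h20 h03 h35 h56 h67 h74
  omega

/-- Counting: new values are used exactly twice, the other values are used. -/
theorem count_facts {N : Finset ℕ} {U : List ℕ} (hN : ∀ v ∈ N, 2 ≤ U.count v)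
    (hc : N.card = 2) (hU : U.length = 4) :
    (∀ v, v ∉ N → U.count v = 0) ∧ ∀ v, U.count v ≤ 2 := by
  have hsum : ∀ M : Finset ℕ, M ⊆ N → 2 * M.card ≤ ∑ v ∈ M, U.count v := by
    intro M hM
    rw [mul_comm, ← smul_eq_mul, ← Finset.sum_const]
    exact Finset.sum_le_sum (fun v hv => hN v (hM hv))
  have h1 : ∀ v, v ∉ N → U.count v = 0 := by
    intro v hv
    have h1 := sum_count_le (insert v N) U
    rw [Finset.sum_insert hv] at h1
    have h2 := hsum N (Finset.Subset.refl _)
    omega
  refine ⟨h1, fun v => ?_⟩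
  by_cases hv : v ∈ N
  · have h2 := Finset.add_sum_erase N (fun v => U.count v) hv
    have h3 := hsum (N.erase v) (Finset.erase_subset _ _)
    have h4 := sum_count_le N U
    rw [Finset.card_erase_of_mem hv] at h3
    omega
  · rw [h1 v hv]; omega

/-- Structure of the `rho'`-minimal inversion sequences of length 12. -/
theorem struct {t : List ℕ} (h : IsMinInv rho' t) (hl : t.length = 12) :
    ∃ X : List ℕ, X.length = 8 ∧ IsInv X ∧ (compl8 X).length = 3 ∧ (∀ v, X.count v ≤ 2) ∧
      (∃ v1 v0 v2 : ℕ, [v1, v1, v0, v2].Sublist X ∧ v0 < v1 ∧ v1 < v2 ∧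
        ∀ c ∈ compl8 X, v2 < c) ∧ t = X ++ 8 :: compl8 X := by
  have hcay' : IsCayley rho' := isPattern_rho'.2
  obtain ⟨X, Y2, e1, U, q, ht, hX, hsub, hU, hUl, ho, hN⟩ := struct_gen h (by rw [hl]; rfl)
  have hlen1 : e1.length + 1 + Y2.length = 8 := by
    have := ho.1
    simp only [List.length_append, List.length_cons] at this
    have h8 : rho'.length = 8 := rfl
    omega
  have hlen2 : q + 1 + Y2.length = 12 := by
    have := congrArg List.length ht
    simp only [List.length_append, List.length_cons] at this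
    omega
  have hstd : std (e1 ++ q :: Y2) = rho' := std_eq_of_sameOrder ho hcay'
  have hrk : rk (e1 ++ q :: Y2) q = rho'.getD e1.length 0 := by
    have hi : e1.length < (std (e1 ++ q :: Y2)).length := by rw [length_std]; simp
    have h1 : (std (e1 ++ q :: Y2))[e1.length] = rk (e1 ++ q :: Y2) q := by
      rw [getElem_std]
      congr 1
      simp
    rw [← h1, ← hstd, List.getD_eq_getElem _ _ hi]
  obtain ⟨N, hNdef⟩ : ∃ N, N = (Finset.range q).filter (fun v => v ∉ e1 ++ q :: Y2) := ⟨_, rfl⟩
  have hcard : q = rk (e1 ++ q :: Y2) q + N.card := by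
    rw [rk_eq_card, hNdef]
    have h1 : (e1 ++ q :: Y2).toFinset.filter (· < q) =
        (Finset.range q).filter (fun v => v ∈ e1 ++ q :: Y2) := by
      ext v
      rw [Finset.mem_filter, Finset.mem_filter, List.mem_toFinset, Finset.mem_range, and_comm]
    rw [h1, Finset.card_filter_add_card_filter_not, Finset.card_range]
  have hN2 : ∀ v ∈ N, 2 ≤ U.count v := by
    intro v hv
    rw [hNdef, Finset.mem_filter, Finset.mem_range] at hv
    exact (hN v hv.1 hv.2).2
  have hsum : 2 * N.card ≤ ∑ v ∈ N, U.count v := by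
    rw [mul_comm, ← smul_eq_mul, ← Finset.sum_const]
    exact Finset.sum_le_sum hN2
  have hsum2 := sum_count_le N U
  have hm : e1.length = 4 := by
    apply key_index _ (by omega)
    rw [← hrk]; omega
  have hq : q = 8 := by omega
  have hNc : N.card = 2 := by
    rw [hm] at hrk
    have : rk (e1 ++ q :: Y2) q = 6 := hrk
    omega
  have hY2 : Y2.length = 3 := by omega
  have hcay : IsCayley t := h.1.2.1
  have hinv : IsInv t := h.1.1
  obtain ⟨hout, hU2⟩ := count_facts hN2 hNc hUl
  clear hcard hsum hsum2 hrk hstd hlen1 hlen2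
  subst hq
  -- explicit form
  obtain ⟨b, a, c, d, rfl⟩ : ∃ b a c d, e1 = [b, a, c, d] := by
    match e1, hm with
    | [a, b, c, d], _ => exact ⟨a, b, c, d, rfl⟩
  obtain ⟨c0, c1, c2, rfl⟩ : ∃ c0 c1 c2, Y2 = [c0, c1, c2] := by
    match Y2, hY2 with
    | [a, b, c], _ => exact ⟨a, b, c, rfl⟩
  obtain ⟨rfl, hca, had, hdc, hc01, hc12, hc28⟩ := order_facts ho
  have hnotN : ∀ v ∈ [a, a, c, d] ++ 8 :: [c0, c1, c2], v ∉ N := by
    intro v hv hvN
    rw [hNdef, Finset.mem_filter] at hvN
    exact hvN.2 hv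
  have hcnt : ∀ v, X.count v = [a, a, c, d].count v + U.count v := by
    intro v
    rw [hU.count_eq v, List.count_append]
  have hcX : ∀ v ∈ [c0, c1, c2], v ∉ X := by
    intro v hv hvX
    have h1 : 0 < X.count v := List.count_pos_iff.2 hvX
    have h2 : v ∉ N := hnotN v (List.mem_append_right _ (List.mem_cons_of_mem _ hv))
    have h3 : [a, a, c, d].count v = 0 :=
      List.count_eq_zero.2 (not_mem_four hca had hdc hc01 hc12 hv)
    rw [hcnt v, h3, hout v h2] at h1
    exact absurd h1 (lt_irrefl 0)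
  have hcompl : compl8 X = [c0, c1, c2] := by
    refine compl8_eq hc01 hc12 hc28 hcX (fun v hv => ?_)
    have h3 : v ∈ t := hcay 8 (by rw [ht]; exact List.mem_append_right _ (by simp)) v hv
    rw [ht] at h3
    rcases List.mem_append.1 h3 with h3 | h3
    · exact Or.inl h3
    · rcases List.mem_cons.1 h3 with h3 | h3
      · exact absurd h3 (Nat.ne_of_lt hv)
      · exact Or.inr h3
  refine ⟨X, hX, ?_, by rw [hcompl]; rfl, ?_, ⟨a, c, d, hsub, hca, had, ?_⟩, ?_⟩
  · intro i hi
    have h1 : IsInv (X ++ 8 :: [c0, c1, c2]) := ht ▸ hinv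
    have := h1 i (by rw [List.length_append]; exact Nat.lt_add_right _ hi)
    rwa [List.getElem_append_left hi] at this
  · intro v
    rw [hcnt v]
    by_cases hvN : v ∈ N
    · have h1 : [a, a, c, d].count v = 0 :=
        List.count_eq_zero.2 (fun h2 => hnotN v (List.mem_append_left _ h2) hvN)
      rw [h1, Nat.zero_add]
      exact hU2 v
    · rw [hout v hvN, Nat.add_zero]
      exact count_four hca had
  · intro v hv
    rw [hcompl] at hv
    clear hcnt hout hU2 hnotN hcX hN hN2
    simp only [List.mem_cons, List.not_mem_nil, or_false] at hv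
    omega
  · rw [hcompl, ht]

/-- Upper bound: `c_2(rho') ≤ 15`. -/
theorem upper : isbtEntry rho' 2 ≤ 15 := by
  have hsub : {t : List ℕ | IsMinInv rho' t ∧ (t.length : ℤ) = rho'.length + mdd rho' + (2 : ℕ)} ⊆
      ((L15.toFinset : Finset (List ℕ)) : Set (List ℕ)) := by
    rintro t ⟨hm, hlen⟩
    rw [mdd_rho'] at hlen
    have hl : t.length = 12 := by
      have : (rho'.length : ℤ) = 8 := rfl
      rw [this] at hlen
      have h2 : (t.length : ℤ) = 12 := by rw [hlen]; norm_num
      exact_mod_cast h2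
    obtain ⟨X, h8, hinv, hc, h2, hp, ht⟩ := struct hm hl
    rcases check_all X h8 hinv hc h2 hp with h | ⟨u, hu, hcu, hne⟩
    · rw [← ht] at h
      simpa using h
    · rw [← ht] at hcu hne
      exact absurd (hm.2 u hu hcu) hne
  calc isbtEntry rho' 2 ≤ ((L15.toFinset : Finset (List ℕ)) : Set (List ℕ)).ncard :=
        Set.ncard_le_ncard hsub (Finset.finite_toSet _)
    _ = L15.toFinset.card := Set.ncard_coe_finset _
    _ ≤ L15.length := List.toFinset_card_le _
    _ = 15 := rfl

end InvSeqPat
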