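import Mathlib

/-! Row transformation: moving the letters `k` behind the first `k`. -/

namespace InvSeqPat

/-- Replace the letters `≤ k` of the first list successively by the letters of the second one. -/
def fillw (k : ℕ) : List ℕ → List ℕ → List ℕ
  | [], _ => []
  | x :: xs, [] => x :: xs
  | x :: xs, y :: ys => if x ≤ k then y :: fillw k xs ys else x :: fillw k xs (y :: ys)

/-- Collapse the letters `≤ k`. -/
def fl (k x : ℕ) : ℕ := if x ≤ k then 0 else x

/-- The `i`-th entry is at most `m + i`. -/
def InvFrom (m : ℕ) (s : List ℕ) : Prop := ∀ (i : ℕ) (h : i < s.length), s[i] ≤ m + i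

theorem invFrom_nil (m : ℕ) : InvFrom m [] := by intro i h; simp at h

theorem invFrom_cons {m x : ℕ} {xs : List ℕ} :
    InvFrom m (x :: xs) ↔ x ≤ m ∧ InvFrom (m + 1) xs := by
  constructor
  · intro h
    refine ⟨?_, fun i hi => ?_⟩
    · have := h 0 (by simp)
      simp only [List.getElem_cons_zero, Nat.add_zero] at this
      exact this
    have := h (i + 1) (by simpa using hi)
    simp only [List.getElem_cons_succ] at this
    omega
  · rintro ⟨h0, h⟩ i hi
    cases i with
    | zero => simpa using h0
    | succ i =>
      have := h i (by simpa using hi)
      simp only [List.getElem_cons_succ]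
      omega

theorem invFrom_append {m : ℕ} {A B : List ℕ} :
    InvFrom m (A ++ B) ↔ InvFrom m A ∧ InvFrom (m + A.length) B := by
  induction A generalizing m with
  | nil => simp [invFrom_nil]
  | cons x xs ih =>
    rw [List.cons_append, invFrom_cons, invFrom_cons, ih]
    have : m + 1 + xs.length = m + (x :: xs).length := by simp; omega
    rw [this, and_assoc]

theorem length_fillw (k : ℕ) (L w : List ℕ) : (fillw k L w).length = L.length := by
  induction L generalizing w with
  | nil => simp [fillw]
  | cons x xs ih =>
    cases w with
    | nil => simp [fillw]
    | cons y ys =>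
      simp only [fillw]
      split_ifs <;> simp [ih]

theorem map_fillw {k : ℕ} {L w : List ℕ} (hw : ∀ y ∈ w, y ≤ k) :
    (fillw k L w).map (fl k) = L.map (fl k) := by
  induction L generalizing w with
  | nil => simp [fillw]
  | cons x xs ih =>
    cases w with
    | nil => simp [fillw]
    | cons y ys =>
      simp only [fillw]
      have hy : y ≤ k := hw y (by simp)
      have hys : ∀ z ∈ ys, z ≤ k := fun z hz => hw z (by simp [hz])
      split_ifs with hx
      · simp only [List.map_cons, ih hys]
        simp [fl, hx, hy]
      · simp only [List.map_cons, ih hw]

theorem filter_fillw {k : ℕ} {L w : List ℕ} (hw : ∀ y ∈ w, y ≤ k)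
    (hl : w.length = (L.filter (fun x => decide (x ≤ k))).length) :
    (fillw k L w).filter (fun x => decide (x ≤ k)) = w := by
  induction L generalizing w with
  | nil =>
    simp only [List.filter_nil, List.length_nil, List.length_eq_zero_iff] at hl
    simp [fillw, hl]
  | cons x xs ih =>
    cases w with
    | nil =>
      simp only [List.length_nil] at hl
      have := List.length_eq_zero_iff.1 hl.symm
      simp only [fillw]
      exact this
    | cons y ys =>
      have hy : y ≤ k := hw y (by simp)
      have hys : ∀ z ∈ ys, z ≤ k := fun z hz => hw z (by simp [hz])
      simp only [fillw]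
      split_ifs with hx
      · rw [List.filter_cons_of_pos (by simpa using hx)] at hl
        rw [List.filter_cons_of_pos (by simpa using hy), ih hys (by simpa using hl)]
      · rw [List.filter_cons_of_neg (by simpa using hx)] at hl
        rw [List.filter_cons_of_neg (by simpa using hx), ih hw hl]

theorem fillw_self (k : ℕ) (L : List ℕ) :
    fillw k L (L.filter (fun x => decide (x ≤ k))) = L := by
  induction L with
  | nil => simp [fillw]
  | cons x xs ih =>
    by_cases hx : x ≤ k
    · rw [List.filter_cons_of_pos (by simpa using hx)]
      simp [fillw, hx, ih]
    · rw [List.filter_cons_of_neg (by simpa using hx)]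
      cases hw : xs.filter (fun x => decide (x ≤ k)) with
      | nil => simp [fillw]
      | cons y ys =>
        rw [hw] at ih
        simp [fillw, hx, ih]

theorem fillw_fillw {k : ℕ} {L w w' : List ℕ} (hw : ∀ y ∈ w, y ≤ k) (hl : w.length = w'.length) :
    fillw k (fillw k L w) w' = fillw k L w' := by
  induction L generalizing w w' with
  | nil => simp [fillw]
  | cons x xs ih =>
    cases w with
    | nil =>
      have : w' = [] := List.length_eq_zero_iff.1 (by simpa using hl.symm)
      subst this
      simp [fillw]
    | cons y ys =>
      cases w' with
      | nil => simp at hl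
      | cons y' ys' =>
        have hy : y ≤ k := hw y (by simp)
        have hys : ∀ z ∈ ys, z ≤ k := fun z hz => hw z (by simp [hz])
        by_cases hx : x ≤ k
        · simp only [fillw, hx, if_true, hy]
          rw [ih hys (by simpa using hl)]
        · simp only [fillw, hx, if_false]
          rw [ih hw hl]

theorem invFrom_fillw {k m : ℕ} {L w : List ℕ} (hL : InvFrom m L) (hk : k ≤ m)
    (hw : ∀ y ∈ w, y ≤ k) : InvFrom m (fillw k L w) := by
  induction L generalizing w m with
  | nil => simpa [fillw] using hL
  | cons x xs ih =>
    cases w with
    | nil => simpa [fillw] using hL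
    | cons y ys =>
      have hy : y ≤ k := hw y (by simp)
      have hys : ∀ z ∈ ys, z ≤ k := fun z hz => hw z (by simp [hz])
      rw [invFrom_cons] at hL
      simp only [fillw]
      split_ifs with hx
      · rw [invFrom_cons]
        exact ⟨by omega, ih hL.2 (by omega) hys⟩
      · rw [invFrom_cons]
        exact ⟨hL.1, ih hL.2 (by omega) hw⟩

/-- The two words: small letters first, resp. letters `k` first. -/
def F1 (k : ℕ) (L : List ℕ) : List ℕ :=
  L.filter (fun x => decide (x < k)) ++ List.replicate (L.count k) k

def F2 (k : ℕ) (L : List ℕ) : List ℕ :=
  List.replicate (L.count k) k ++ L.filter (fun x => decide (x < k))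

/-- What we need to know about `F1`, `F2`. -/
structure GoodF (k : ℕ) (F : List ℕ → List ℕ) : Prop where
  le : ∀ L, ∀ y ∈ F L, y ≤ k
  cnt : ∀ L, (F L).count k = L.count k
  flt : ∀ L, (F L).filter (fun x => decide (x < k)) = L.filter (fun x => decide (x < k))
  congr : ∀ L L', L.count k = L'.count k →
    L.filter (fun x => decide (x < k)) = L'.filter (fun x => decide (x < k)) → F L = F L'
  len : ∀ L, (F L).length = L.count k + (L.filter (fun x => decide (x < k))).length

theorem count_filter_lt (k : ℕ) (L : List ℕ) :
    (L.filter (fun x => decide (x < k))).count k = 0 := by
  rw [List.count_eq_zero]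
  intro h
  simp at h

theorem filter_lt_replicate (k n : ℕ) :
    (List.replicate n k).filter (fun x => decide (x < k)) = [] := by
  simp

theorem goodF1 (k : ℕ) : GoodF k (F1 k) where
  le L y hy := by
    simp only [F1, List.mem_append, List.mem_filter, List.mem_replicate, decide_eq_true_eq] at hy
    rcases hy with h | h
    · omega
    · omega
  cnt L := by simp [F1, List.count_append, count_filter_lt]
  flt L := by
    simp only [F1, List.filter_append, filter_lt_replicate, List.append_nil, List.filter_filter,
      Bool.and_self]
  congr L L' h1 h2 := by simp only [F1, h1, h2]
  len L := by simp [F1]; omega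

theorem goodF2 (k : ℕ) : GoodF k (F2 k) where
  le L y hy := by
    simp only [F2, List.mem_append, List.mem_filter, List.mem_replicate, decide_eq_true_eq] at hy
    rcases hy with h | h
    · omega
    · omega
  cnt L := by simp [F2, List.count_append, count_filter_lt]
  flt L := by
    simp only [F2, List.filter_append, filter_lt_replicate, List.nil_append, List.filter_filter,
      Bool.and_self]
  congr L L' h1 h2 := by simp only [F2, h1, h2]
  len L := by simp [F2]

theorem length_filter_le (k : ℕ) (L : List ℕ) :
    (L.filter (fun x => decide (x ≤ k))).length =
      L.count k + (L.filter (fun x => decide (x < k))).length := by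
  induction L with
  | nil => simp
  | cons x xs ih =>
    rcases lt_trichotomy x k with h | h | h
    · rw [List.filter_cons_of_pos (by simpa using h.le), List.filter_cons_of_pos (by simpa using h),
        List.count_cons_of_ne (by omega)]
      simp only [List.length_cons, ih]; omega
    · subst h
      rw [List.filter_cons_of_pos (by simp), List.filter_cons_of_neg (by simp),
        List.count_cons_self]
      simp only [List.length_cons, ih]; omega
    · rw [List.filter_cons_of_neg (by simp; omega), List.filter_cons_of_neg (by simp; omega),
        List.count_cons_of_ne (by omega), ih]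

theorem filter_lt_filter_le (k : ℕ) (L : List ℕ) :
    (L.filter (fun x => decide (x ≤ k))).filter (fun x => decide (x < k)) =
      L.filter (fun x => decide (x < k)) := by
  rw [List.filter_filter]
  apply List.filter_congr
  intro x _
  by_cases h : x < k
  · simp [h, h.le]
  · simp [h]

theorem count_filter_le (k : ℕ) (L : List ℕ) :
    (L.filter (fun x => decide (x ≤ k))).count k = L.count k := by
  rw [List.count_filter (by simp)]

theorem fillw_count {k : ℕ} {F : List ℕ → List ℕ} (hF : GoodF k F) (L : List ℕ) :
    (fillw k L (F L)).count k = L.count k := by
  rw [← count_filter_le k (fillw k L (F L)),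
    filter_fillw (hF.le L) (by rw [hF.len, length_filter_le]), hF.cnt]

theorem fillw_filter {k : ℕ} {F : List ℕ → List ℕ} (hF : GoodF k F) (L : List ℕ) :
    (fillw k L (F L)).filter (fun x => decide (x < k)) = L.filter (fun x => decide (x < k)) := by
  rw [← filter_lt_filter_le k (fillw k L (F L)),
    filter_fillw (hF.le L) (by rw [hF.len, length_filter_le]), hF.flt]

/-- The transformation: behind the first `k`, put the letters `≤ k` in the order given by `F`. -/
def mv (F : List ℕ → List ℕ) (k : ℕ) : List ℕ → List ℕ
  | [] => []
  | x :: xs => if x = k then x :: fillw k xs (F xs) else x :: mv F k xs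

variable {k : ℕ} {F F' : List ℕ → List ℕ}

theorem length_mv (L : List ℕ) : (mv F k L).length = L.length := by
  induction L with
  | nil => simp [mv]
  | cons x xs ih =>
    simp only [mv]
    split_ifs <;> simp [length_fillw, ih]

theorem map_mv (hF : GoodF k F) (L : List ℕ) : (mv F k L).map (fl k) = L.map (fl k) := by
  induction L with
  | nil => simp [mv]
  | cons x xs ih =>
    simp only [mv]
    split_ifs
    · simp only [List.map_cons, map_fillw (hF.le xs)]
    · simp only [List.map_cons, ih]

theorem filter_mv (hF : GoodF k F) (L : List ℕ) :
    (mv F k L).filter (fun x => decide (x < k)) = L.filter (fun x => decide (x < k)) := by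
  induction L with
  | nil => simp [mv]
  | cons x xs ih =>
    simp only [mv]
    split_ifs with h
    · simp only [List.filter_cons, fillw_filter hF]
    · simp only [List.filter_cons, ih]

theorem mv_mv (hF : GoodF k F) (hF' : GoodF k F') (L : List ℕ) :
    mv F k (mv F' k L) = mv F k L := by
  induction L with
  | nil => simp [mv]
  | cons x xs ih =>
    by_cases h : x = k
    · subst h
      simp only [mv, if_true]
      rw [hF.congr _ xs (fillw_count hF' xs) (fillw_filter hF' xs),
        fillw_fillw (hF'.le xs) (by rw [hF.len, hF'.len])]
    · simp only [mv, h, if_false, ih]

theorem invFrom_mv (hF : GoodF k F) {m : ℕ} {L : List ℕ} (hL : InvFrom m L) :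
    InvFrom m (mv F k L) := by
  induction L generalizing m with
  | nil => simpa [mv] using hL
  | cons x xs ih =>
    rw [invFrom_cons] at hL
    simp only [mv]
    split_ifs with h
    · rw [invFrom_cons]
      exact ⟨hL.1, invFrom_fillw hL.2 (by omega) (hF.le xs)⟩
    · rw [invFrom_cons]
      exact ⟨hL.1, ih hL.2⟩

/-! The two normal forms. -/

theorem no_uk_iff {k : ℕ} {ys : List ℕ} (hy : ∀ y ∈ ys, y ≤ k) :
    (∀ u, u < k → ¬ [u, k].Sublist ys) ↔
      ys = List.replicate (ys.count k) k ++ ys.filter (fun x => decide (x < k)) := by
  induction ys with
  | nil => simp
  | cons y ys ih =>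
    have hy' : ∀ z ∈ ys, z ≤ k := fun z hz => hy z (by simp [hz])
    rcases (hy y (by simp)).lt_or_eq with h | h
    · constructor
      · intro H
        have hk : k ∉ ys := by
          intro hk
          exact H y h (List.cons_sublist_cons.2 (by simpa using hk))
        rw [List.count_cons_of_ne (by omega), List.count_eq_zero.2 hk]
        simp only [List.replicate_zero, List.nil_append]
        rw [List.filter_eq_self.2]
        intro z hz
        rcases List.mem_cons.1 hz with rfl | hz
        · simpa using h
        · have : z ≠ k := fun e => hk (e ▸ hz)
          have := hy' z hz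
          simp; omega
      · intro H u hu hs
        have hk : k ∈ y :: ys := hs.subset (by simp)
        have hc : 0 < (y :: ys).count k := List.count_pos_iff.2 hk
        obtain ⟨c, hc'⟩ := Nat.exists_eq_succ_of_ne_zero hc.ne'
        rw [hc'] at H
        simp only [List.replicate_succ, List.cons_append, List.cons.injEq] at H
        omega
    · subst h
      rw [List.count_cons_self, List.filter_cons_of_neg (by simp), List.replicate_succ,
        List.cons_append]
      simp only [List.cons.injEq, true_and]
      rw [← ih hy']
      constructor
      · intro H u hu hs
        exact H u hu (hs.cons _)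
      · intro H u hu hs
        rcases List.sublist_cons_iff.1 hs with h | ⟨r, h1, h2⟩
        · exact H u hu h
        · simp only [List.cons.injEq] at h1
          omega

theorem no_ku_iff {k : ℕ} {ys : List ℕ} (hy : ∀ y ∈ ys, y ≤ k) :
    (∀ u, u < k → ¬ [k, u].Sublist ys) ↔
      ys = ys.filter (fun x => decide (x < k)) ++ List.replicate (ys.count k) k := by
  induction ys with
  | nil => simp
  | cons y ys ih =>
    have hy' : ∀ z ∈ ys, z ≤ k := fun z hz => hy z (by simp [hz])
    rcases (hy y (by simp)).lt_or_eq with h | h
    · rw [List.count_cons_of_ne (by omega), List.filter_cons_of_pos (by simpa using h),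
        List.cons_append]
      simp only [List.cons.injEq, true_and]
      rw [← ih hy']
      constructor
      · intro H u hu hs
        exact H u hu (hs.cons _)
      · intro H u hu hs
        rcases List.sublist_cons_iff.1 hs with h' | ⟨r, h1, h2⟩
        · exact H u hu h'
        · simp only [List.cons.injEq] at h1
          omega
    · subst h
      constructor
      · intro H
        have hk : ys.filter (fun x => decide (x < y)) = [] := by
          rw [List.filter_eq_nil_iff]
          intro z hz hzy
          simp only [decide_eq_true_eq] at hzy
          exact H z hzy (List.cons_sublist_cons.2 (by simpa using hz))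
        rw [List.filter_cons_of_neg (by simp), hk]
        simp only [List.nil_append]
        rw [List.eq_replicate_iff]
        refine ⟨?_, ?_⟩
        · have := length_filter_le y (y :: ys)
          have h1 : (y :: ys).filter (fun x => decide (x < y)) = [] := by
            rw [List.filter_cons_of_neg (by simp)]; exact hk
          have h2 : (y :: ys).filter (fun x => decide (x ≤ y)) = y :: ys :=
            List.filter_eq_self.2 (fun z hz => by simpa using hy z hz)
          rw [h1, h2] at this
          simpa using this
        · intro z hz
          by_contra hne
          have hzy : z < y := lt_of_le_of_ne (hy z hz) hne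
          rcases List.mem_cons.1 hz with rfl | hz
          · exact hne rfl
          · have : z ∈ ys.filter (fun x => decide (x < y)) := by
              rw [List.mem_filter]; exact ⟨hz, by simpa using hzy⟩
            rw [hk] at this
            simp at this
      · intro H u hu hs
        have hu' : u ∈ ys := by
          rcases List.sublist_cons_iff.1 hs with h' | ⟨r, h1, h2⟩
          · exact h'.subset (by simp)
          · simp only [List.cons.injEq, true_and] at h1
            subst h1
            simpa using h2
        have hf : u ∈ ys.filter (fun x => decide (x < y)) := by
          rw [List.mem_filter]; exact ⟨hu', by simpa using hu⟩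
        rw [List.filter_cons_of_neg (by simp)] at H
        cases hfe : ys.filter (fun x => decide (x < y)) with
        | nil => rw [hfe] at hf; simp at hf
        | cons z zs =>
          have hz : z ∈ ys.filter (fun x => decide (x < y)) := by rw [hfe]; simp
          rw [List.mem_filter] at hz
          rw [hfe] at H
          simp only [List.cons_append, List.cons.injEq] at H
          have := hz.2
          simp only [decide_eq_true_eq] at this
          omega

theorem sub_filter_iff {k : ℕ} {ys l : List ℕ} (hl : ∀ y ∈ l, y ≤ k) :
    l.Sublist (ys.filter (fun x => decide (x ≤ k))) ↔ l.Sublist ys := by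
  constructor
  · intro h
    exact h.trans List.filter_sublist
  · intro h
    have := h.filter (fun x => decide (x ≤ k))
    rwa [List.filter_eq_self.2 (fun y hy => by simpa using hl y hy)] at this

theorem noP_iff (k : ℕ) (A : List ℕ) :
    (∀ u, u < k → ¬ [k, u, k].Sublist A) ↔ mv (F2 k) k A = A := by
  induction A with
  | nil => simp [mv]
  | cons x xs ih =>
    by_cases h : x = k
    · subst h
      simp only [mv, if_true, List.cons.injEq, true_and]
      have key : (∀ u, u < x → ¬ [x, u, x].Sublist (x :: xs)) ↔
          (∀ u, u < x → ¬ [u, x].Sublist (xs.filter (fun y => decide (y ≤ x)))) := by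
        constructor
        · intro H u hu hs
          rw [sub_filter_iff (by simp; omega)] at hs
          exact H u hu (List.cons_sublist_cons.2 hs)
        · intro H u hu hs
          apply H u hu
          rw [sub_filter_iff (by simp; omega)]
          rcases List.sublist_cons_iff.1 hs with h' | ⟨r, h1, h2⟩
          · exact (List.sublist_cons_self _ _).trans h'
          · simp only [List.cons.injEq, true_and] at h1
            subst h1
            exact h2
      rw [key, no_uk_iff (by intro y hy; rw [List.mem_filter] at hy; simpa using hy.2),
        count_filter_le, filter_lt_filter_le]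
      constructor
      · intro H
        have : F2 x xs = xs.filter (fun y => decide (y ≤ x)) := by rw [H]; rfl
        rw [this, fillw_self]
      · intro H
        have := filter_fillw (k := x) (L := xs) ((goodF2 x).le xs)
          (by rw [(goodF2 x).len, length_filter_le])
        rw [H] at this
        rw [this]; rfl
    · simp only [mv, h, if_false, List.cons.injEq, true_and]
      rw [← ih]
      constructor
      · intro H u hu hs
        exact H u hu (hs.cons _)
      · intro H u hu hs
        rcases List.sublist_cons_iff.1 hs with h' | ⟨r, h1, h2⟩
        · exact H u hu h'
        · simp only [List.cons.injEq] at h1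
          exact h h1.1.symm

theorem noQ_iff (k : ℕ) (A : List ℕ) :
    (∀ u, u < k → ¬ [k, k, u].Sublist A) ↔ mv (F1 k) k A = A := by
  induction A with
  | nil => simp [mv]
  | cons x xs ih =>
    by_cases h : x = k
    · subst h
      simp only [mv, if_true, List.cons.injEq, true_and]
      have key : (∀ u, u < x → ¬ [x, x, u].Sublist (x :: xs)) ↔
          (∀ u, u < x → ¬ [x, u].Sublist (xs.filter (fun y => decide (y ≤ x)))) := by
        constructor
        · intro H u hu hs
          rw [sub_filter_iff (by simp; omega)] at hs
          exact H u hu (List.cons_sublist_cons.2 hs)
        · intro H u hu hs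
          apply H u hu
          rw [sub_filter_iff (by simp; omega)]
          rcases List.sublist_cons_iff.1 hs with h' | ⟨r, h1, h2⟩
          · exact (List.sublist_cons_self _ _).trans h'
          · simp only [List.cons.injEq, true_and] at h1
            subst h1
            exact h2
      rw [key, no_ku_iff (by intro y hy; rw [List.mem_filter] at hy; simpa using hy.2),
        count_filter_le, filter_lt_filter_le]
      constructor
      · intro H
        have : F1 x xs = xs.filter (fun y => decide (y ≤ x)) := by rw [H]; rfl
        rw [this, fillw_self]
      · intro H
        have := filter_fillw (k := x) (L := xs) ((goodF1 x).le xs)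
          (by rw [(goodF1 x).len, length_filter_le])
        rw [H] at this
        rw [this]; rfl
    · simp only [mv, h, if_false, List.cons.injEq, true_and]
      rw [← ih]
      constructor
      · intro H u hu hs
        exact H u hu (hs.cons _)
      · intro H u hu hs
        rcases List.sublist_cons_iff.1 hs with h' | ⟨r, h1, h2⟩
        · exact H u hu h'
        · simp only [List.cons.injEq] at h1
          exact h h1.1.symm

end InvSeqPat
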