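import Pool.Agent.helper45.WI.Defs
import Pool.Agent.helper45.WI.Fill

/-! Row by row bijection. -/

namespace InvSeqPat

/-- `B` contains `β` above the value `v`. -/
def Rb (β B : List ℕ) (v : ℕ) : Prop :=
  ∃ b : List ℕ, b.Sublist B ∧ (∀ x ∈ b, v < x) ∧ SameOrder b β

theorem Rb.mono {β B : List ℕ} {v v' : ℕ} (h : Rb β B v) (hv : v' ≤ v) : Rb β B v' := by
  obtain ⟨b, h1, h2, h3⟩ := h
  exact ⟨b, h1, fun x hx => lt_of_le_of_lt hv (h2 x hx), h3⟩

/-- The two three-letter words. -/
def wP (v u : ℕ) : List ℕ := [v, u, v]
def wQ (v u : ℕ) : List ℕ := [v, v, u]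

/-- Row `v` of `s` contains no word `w v u` (`u < v`) followed by `β` above `v`. -/
def NoW (w : ℕ → ℕ → List ℕ) (β : List ℕ) (v : ℕ) (s : List ℕ) : Prop :=
  ∀ A B u, s = A ++ B → Rb β B v → u < v → ¬ (w v u).Sublist A

structure GoodW (w : ℕ → ℕ → List ℕ) : Prop where
  le : ∀ v u, u < v → ∀ x ∈ w v u, x ≤ v
  ne : ∀ v u, w v u ≠ []
  mem : ∀ v u, v ∈ w v u
  map : ∀ k v u l, k < v → u < v → (w v u).map (fl k) = l.map (fl k) →
    ∃ u', u' < v ∧ l = w v u'

theorem fl_eq {k v x : ℕ} (hk : k < v) : fl k x = v ↔ x = v := by
  unfold fl; split_ifs <;> omega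

theorem fl_lt {k v x : ℕ} (hk : k < v) : fl k x < v ↔ x < v := by
  unfold fl; split_ifs <;> omega

theorem fl_self {k v : ℕ} (hk : k < v) : fl k v = v := (fl_eq hk).2 rfl

theorem goodW_P : GoodW wP where
  le v u hu x hx := by simp [wP] at hx; omega
  ne v u := by simp [wP]
  mem v u := by simp [wP]
  map k v u l hk hu h := by
    match l, h with
    | [a, b, c], h =>
      simp only [wP, List.map_cons, List.map_nil, List.cons.injEq, and_true, fl_self hk] at h
      obtain ⟨h1, h2, h3⟩ := h
      have ha := (fl_eq hk).1 h1.symm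
      have hc := (fl_eq hk).1 h3.symm
      have hb : b < v := (fl_lt hk).1 (by rw [← h2]; exact (fl_lt hk).2 hu)
      exact ⟨b, hb, by rw [ha, hc]; rfl⟩
    | [], h => simp [wP] at h
    | [_], h => simp [wP] at h
    | [_, _], h => simp [wP] at h
    | _ :: _ :: _ :: _ :: _, h => simp [wP] at h

theorem goodW_Q : GoodW wQ where
  le v u hu x hx := by simp [wQ] at hx; omega
  ne v u := by simp [wQ]
  mem v u := by simp [wQ]
  map k v u l hk hu h := by
    match l, h with
    | [a, c, b], h =>
      simp only [wQ, List.map_cons, List.map_nil, List.cons.injEq, and_true, fl_self hk] at h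
      obtain ⟨h1, h3, h2⟩ := h
      have ha := (fl_eq hk).1 h1.symm
      have hc := (fl_eq hk).1 h3.symm
      have hb : b < v := (fl_lt hk).1 (by rw [← h2]; exact (fl_lt hk).2 hu)
      exact ⟨b, hb, by rw [ha, hc]; rfl⟩
    | [], h => simp [wQ] at h
    | [_], h => simp [wQ] at h
    | [_, _], h => simp [wQ] at h
    | _ :: _ :: _ :: _ :: _, h => simp [wQ] at h

variable {w : ℕ → ℕ → List ℕ} {β : List ℕ}

/-- Rows above `k` only depend on the letters above `k`. -/
theorem NoW_of_map (hw : GoodW w) {k v : ℕ} (hk : k < v) {s s' : List ℕ}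
    (hm : s.map (fl k) = s'.map (fl k)) (h : NoW w β v s) : NoW w β v s' := by
  intro A' B' u hs' hR hu hsub
  have hlen : s.length = s'.length := by simpa using congrArg List.length hm
  set A := s.take A'.length with hA
  set B := s.drop A'.length with hB
  have hs : s = A ++ B := (List.take_append_drop _ _).symm
  have hA' : s'.take A'.length = A' := by rw [hs']; simp
  have hB' : s'.drop A'.length = B' := by rw [hs']; simp
  have mA : A.map (fl k) = A'.map (fl k) := by
    rw [hA, List.map_take, hm, ← List.map_take, hA']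
  have mB : B.map (fl k) = B'.map (fl k) := by
    rw [hB, List.map_drop, hm, ← List.map_drop, hB']
  have fix : ∀ b : List ℕ, (∀ x ∈ b, v < x) → b.map (fl k) = b := by
    intro b hb
    conv_rhs => rw [← List.map_id b]
    apply List.map_congr_left
    intro x hx
    have := hb x hx
    simp only [fl, id]
    split_ifs <;> omega
  have hRB : Rb β B v := by
    obtain ⟨b', h1, h2, h3⟩ := hR
    have h4 : (b'.map (fl k)).Sublist (B.map (fl k)) := by rw [mB]; exact h1.map _
    obtain ⟨b, hb1, hb2⟩ := List.sublist_map_iff.1 h4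
    have hb3 : ∀ x ∈ b, v < x := by
      intro x hx
      have : fl k x ∈ b'.map (fl k) := by rw [hb2]; exact List.mem_map_of_mem hx
      rw [fix b' h2] at this
      have := h2 _ this
      unfold fl at this
      split_ifs at this <;> omega
    rw [fix b' h2, fix b hb3] at hb2
    exact ⟨b, hb1, hb3, hb2 ▸ h3⟩
  have h5 : ((w v u).map (fl k)).Sublist (A.map (fl k)) := by rw [mA]; exact hsub.map _
  obtain ⟨l, hl1, hl2⟩ := List.sublist_map_iff.1 h5
  obtain ⟨u', hu', rfl⟩ := hw.map k v u l hk hu hl2
  exact h A B u' hs hRB hu' hl1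

/-- Rows below `k`. -/
theorem NoW_of_filter (hw : GoodW w) {k v : ℕ} (hk : v < k) {T T' D0 : List ℕ}
    (hlen : T.length = T'.length)
    (hf : T.filter (fun x => decide (x < k)) = T'.filter (fun x => decide (x < k)))
    (hC : T = [] ∨ Rb β D0 k) (h : NoW w β v (T ++ D0)) : NoW w β v (T' ++ D0) := by
  have hfw : ∀ u, u < v → (w v u).filter (fun x => decide (x < k)) = w v u := by
    intro u hu
    rw [List.filter_eq_self]
    intro x hx
    have := hw.le v u hu x hx
    simp; omega
  intro A' B' u hs' hR hu hsub
  rcases List.append_eq_append_iff.1 hs' with ⟨E, h1, h2⟩ | ⟨E, h1, h2⟩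
  · -- A' = T' ++ E, D0 = E ++ B'
    refine h (T ++ E) B' u (by rw [h2, List.append_assoc]) hR hu ?_
    have h3 := hsub.filter (fun x => decide (x < k))
    rw [hfw u hu, h1, List.filter_append, ← hf, ← List.filter_append] at h3
    exact h3.trans List.filter_sublist
  · -- T' = A' ++ E, B' = E ++ D0
    have hT : T ≠ [] := by
      intro hT
      rw [hT] at hlen
      have : T' = [] := List.length_eq_zero_iff.1 hlen.symm
      rw [this] at h1
      have hA' : A' = [] := (List.append_eq_nil_iff.1 h1.symm).1
      rw [hA'] at hsub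
      exact hw.ne v u (List.sublist_nil.1 hsub)
    have hRk : Rb β D0 k := hC.resolve_left hT
    refine h T D0 u rfl (hRk.mono hk.le) hu ?_
    have h3 : (w v u).Sublist T' := by
      rw [h1]; exact hsub.trans (List.sublist_append_left _ _)
    have h4 := h3.filter (fun x => decide (x < k))
    rw [hfw u hu, ← hf] at h4
    exact h4.trans List.filter_sublist

/-- The length of the longest prefix whose complement contains `β` above `k`. -/
noncomputable def cut (β : List ℕ) (k : ℕ) (s : List ℕ) : ℕ := by
  classical
  exact Nat.findGreatest (fun m => Rb β (s.drop m) k) s.length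

theorem cut_le (k : ℕ) (s : List ℕ) : cut β k s ≤ s.length := by
  classical
  exact Nat.findGreatest_le _

theorem cut_spec {k : ℕ} {s : List ℕ} (h : cut β k s ≠ 0) : Rb β (s.drop (cut β k s)) k := by
  classical
  exact Nat.findGreatest_of_ne_zero (P := fun m => Rb β (s.drop m) k) rfl h

theorem le_cut {k m : ℕ} {s : List ℕ} (hm : m ≤ s.length) (h : Rb β (s.drop m) k) :
    m ≤ cut β k s := by
  classical
  exact Nat.le_findGreatest (P := fun m => Rb β (s.drop m) k) hm h

theorem cut_congr {k : ℕ} {s T' : List ℕ} (hT : T'.length = cut β k s) :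
    cut β k (T' ++ s.drop (cut β k s)) = cut β k s := by
  set c := cut β k s with hc
  have hcl : c ≤ s.length := cut_le k s
  have hlen : (T' ++ s.drop c).length = s.length := by
    rw [List.length_append, List.length_drop, hT]; omega
  have hdrop : ∀ m, c ≤ m → (T' ++ s.drop c).drop m = s.drop m := by
    intro m hm
    rw [List.drop_append, List.drop_of_length_le (by omega), List.nil_append, List.drop_drop, hT]
    congr 1
    omega
  apply le_antisymm
  · by_contra hlt
    push Not at hlt
    have hne : cut β k (T' ++ s.drop c) ≠ 0 := by omega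
    have h1 := cut_spec hne
    rw [hdrop _ hlt.le] at h1
    have := le_cut (by have := cut_le (β := β) k (T' ++ s.drop c); omega) h1
    omega
  · rcases Nat.eq_zero_or_pos c with h0 | h0
    · omega
    · apply le_cut (by omega)
      rw [hdrop c le_rfl]
      exact cut_spec (by omega)

theorem NoW_iff_take (hw : GoodW w) (k : ℕ) (s : List ℕ) :
    NoW w β k s ↔ ∀ u, u < k → ¬ (w k u).Sublist (s.take (cut β k s)) := by
  constructor
  · intro h u hu hs
    rcases Nat.eq_zero_or_pos (cut β k s) with h0 | h0
    · rw [h0, List.take_zero] at hs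
      exact hw.ne k u (List.sublist_nil.1 hs)
    · exact h _ _ u (List.take_append_drop _ _).symm (cut_spec (by omega)) hu hs
  · intro h A B u hs hR hu hsub
    have h1 : A.length ≤ cut β k s := by
      apply le_cut
      · rw [hs]; simp
      · rw [hs]; simpa using hR
    apply h u hu
    have h2 : A = (s.take (cut β k s)).take A.length := by
      rw [List.take_take, min_eq_left h1, hs]; simp
    rw [h2] at hsub
    exact hsub.trans (List.take_sublist _ _)

/-- The transformation of row `k`. -/
noncomputable def tr (β : List ℕ) (F : List ℕ → List ℕ) (k : ℕ) (s : List ℕ) : List ℕ :=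
  mv F k (s.take (cut β k s)) ++ s.drop (cut β k s)

variable {k : ℕ} {F F' : List ℕ → List ℕ}

theorem length_take_cut (k : ℕ) (s : List ℕ) : (s.take (cut β k s)).length = cut β k s := by
  rw [List.length_take, min_eq_left (cut_le k s)]

theorem length_mv_take (k : ℕ) (s : List ℕ) (F : List ℕ → List ℕ) :
    (mv F k (s.take (cut β k s))).length = cut β k s := by
  rw [length_mv, length_take_cut]

theorem cut_tr (s : List ℕ) : cut β k (tr β F k s) = cut β k s :=
  cut_congr (length_mv_take k s F)

theorem take_tr (s : List ℕ) : (tr β F k s).take (cut β k s) = mv F k (s.take (cut β k s)) := by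
  unfold tr
  rw [List.take_append_of_le_length (by rw [length_mv_take]),
    List.take_of_length_le (by rw [length_mv_take])]

theorem drop_tr (s : List ℕ) : (tr β F k s).drop (cut β k s) = s.drop (cut β k s) := by
  unfold tr
  rw [List.drop_append_of_le_length (by rw [length_mv_take]),
    List.drop_of_length_le (by rw [length_mv_take]), List.nil_append]

theorem length_tr (s : List ℕ) : (tr β F k s).length = s.length := by
  unfold tr
  rw [List.length_append, length_mv_take, List.length_drop]
  have := cut_le (β := β) k s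
  omega

theorem map_tr (hF : GoodF k F) (s : List ℕ) : (tr β F k s).map (fl k) = s.map (fl k) := by
  unfold tr
  rw [List.map_append, map_mv hF, ← List.map_append, List.take_append_drop]

theorem tr_tr (hF : GoodF k F) (hF' : GoodF k F') (s : List ℕ) :
    tr β F k (tr β F' k s) = tr β F k s := by
  change mv F k ((tr β F' k s).take (cut β k (tr β F' k s))) ++
    (tr β F' k s).drop (cut β k (tr β F' k s)) = _
  rw [cut_tr, take_tr, drop_tr, mv_mv hF hF']
  rfl

theorem tr_eq_self_iff (s : List ℕ) :
    tr β F k s = s ↔ mv F k (s.take (cut β k s)) = s.take (cut β k s) := by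
  constructor
  · intro h
    have := take_tr (β := β) (F := F) (k := k) s
    rw [h] at this
    exact this.symm
  · intro h
    unfold tr
    rw [h, List.take_append_drop]

theorem NoW_P_iff (s : List ℕ) : NoW wP β k s ↔ tr β (F2 k) k s = s := by
  rw [NoW_iff_take goodW_P, tr_eq_self_iff]
  exact noP_iff k _

theorem NoW_Q_iff (s : List ℕ) : NoW wQ β k s ↔ tr β (F1 k) k s = s := by
  rw [NoW_iff_take goodW_Q, tr_eq_self_iff]
  exact noQ_iff k _

theorem isInv_iff {s : List ℕ} : IsInv s ↔ InvFrom 0 s := by
  unfold IsInv InvFrom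
  simp

theorem isInv_tr (hF : GoodF k F) {s : List ℕ} (hs : IsInv s) : IsInv (tr β F k s) := by
  rw [isInv_iff] at hs ⊢
  have h1 : s = s.take (cut β k s) ++ s.drop (cut β k s) := (List.take_append_drop _ _).symm
  rw [h1, invFrom_append] at hs
  unfold tr
  rw [invFrom_append]
  refine ⟨invFrom_mv hF hs.1, ?_⟩
  have h2 := hs.2
  rw [length_take_cut] at h2
  rw [length_mv_take]
  exact h2

theorem NoW_tr (hw : GoodW w) (hF : GoodF k F) {v : ℕ} (hv : v ≠ k) (s : List ℕ) :
    NoW w β v (tr β F k s) ↔ NoW w β v s := by
  rcases lt_or_gt_of_ne hv with h | h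
  · -- v < k
    have hs : s.take (cut β k s) ++ s.drop (cut β k s) = s := List.take_append_drop _ _
    have hl : (s.take (cut β k s)).length = (mv F k (s.take (cut β k s))).length := by
      rw [length_mv]
    have hf := filter_mv hF (s.take (cut β k s))
    constructor
    · intro H
      have := NoW_of_filter (β := β) hw h (T := mv F k (s.take (cut β k s)))
        (T' := s.take (cut β k s)) (D0 := s.drop (cut β k s)) hl.symm hf ?_ H
      · rwa [hs] at this
      · rcases Nat.eq_zero_or_pos (cut β k s) with h0 | h0
        · left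
          rw [h0]; simp [mv]
        · right; exact cut_spec (by omega)
    · intro H
      rw [← hs] at H
      have := NoW_of_filter (β := β) hw h (T := s.take (cut β k s))
        (T' := mv F k (s.take (cut β k s))) (D0 := s.drop (cut β k s)) hl hf.symm ?_ ?_
      · exact this
      · rcases Nat.eq_zero_or_pos (cut β k s) with h0 | h0
        · left
          rw [h0]; simp
        · right; exact cut_spec (by omega)
      · exact H
  · exact ⟨NoW_of_map hw h (map_tr hF s), NoW_of_map hw h (map_tr hF s).symm⟩

end InvSeqPat
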