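import Pool.Agent.helper45.WI.Std
import Pool.Agent.helper54.WI.CheckB

namespace InvSeqPat

def L15 : List (List ℕ) :=
  [[0,0,1,1,3,3,2,4,8,5,6,7], [0,0,1,3,1,3,2,4,8,5,6,7], [0,0,1,3,3,2,4,1,8,5,6,7],
   [0,0,2,2,1,3,5,5,8,4,6,7], [0,0,2,2,1,3,6,6,8,4,5,7], [0,0,2,2,1,5,3,5,8,4,6,7],
   [0,0,2,2,1,5,5,3,8,4,6,7], [0,0,2,2,3,3,1,4,8,5,6,7], [0,0,2,2,4,4,1,3,8,5,6,7],
   [0,0,2,3,2,3,1,4,8,5,6,7], [0,0,2,3,3,1,4,2,8,5,6,7], [0,1,0,1,3,3,2,4,8,5,6,7],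
   [0,1,0,3,1,3,2,4,8,5,6,7], [0,1,0,3,3,2,4,1,8,5,6,7], [0,1,1,3,3,2,4,0,8,5,6,7]]

/-- The three values of `{0,...,7}` that do not occur in `X`. -/
def compl8 (X : List ℕ) : List ℕ := (List.range 8).filter (fun v => !X.contains v)

/-- The finite check. Candidates: `40320` inversion sequences `X` of length 8, of which `4288` have
exactly three missing values and all multiplicities at most 2, and `784` also satisfy the pattern
condition; `15` of those are in `L15`, for the others some sublist `s` of length 11 or 10 has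
`std s ∈ IP rho'`. -/
theorem check_all (X : List ℕ) (hl : X.length = 8) (hX : IsInv X)
    (hc : (compl8 X).length = 3) (h2 : ∀ v, X.count v ≤ 2)
    (hp : ∃ v1 v0 v2 : ℕ, [v1, v1, v0, v2].Sublist X ∧ v0 < v1 ∧ v1 < v2 ∧
      ∀ c ∈ compl8 X, v2 < c) :
    (X ++ 8 :: compl8 X) ∈ L15 ∨
      ∃ u, u ∈ IP rho' ∧ Contains (X ++ 8 :: compl8 X) u ∧ u ≠ X ++ 8 :: compl8 X :=
  CheckA.check_all_aux X hl hX hc h2 hp

end InvSeqPat
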