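import Mathlib

/-! Inversion sequences, patterns, Wilf-equivalence and the inversion sequence basis type.
Sequences are lists of natural numbers; the entry with (0-based) index `i` is the entry
`σ_{i+1}` of the problem. -/

namespace InvSeqPat

/-- `s` is an inversion sequence: `0 ≤ σ_i ≤ i - 1` for all `i ≥ 1`. -/
def IsInv (s : List ℕ) : Prop := ∀ (i : ℕ) (h : i < s.length), s[i] ≤ i

/-- Cayley permutation: the set of values is `{0, ..., max}`. -/
def IsCayley (s : List ℕ) : Prop := ∀ x ∈ s, ∀ y, y < x → y ∈ s

/-- A pattern is a nonempty Cayley permutation. -/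
def IsPattern (p : List ℕ) : Prop := p ≠ [] ∧ IsCayley p

/-- The two sequences have the same length and their entries are in the same relative order. -/
def SameOrder (a b : List ℕ) : Prop :=
  a.length = b.length ∧
    ∀ (i j : ℕ) (hi : i < a.length) (hj : j < a.length) (hi' : i < b.length)
      (hj' : j < b.length), (a[i] < a[j] ↔ b[i] < b[j])

/-- `s` contains `p`: some subsequence of `s` has its values in the same relative order as `p`. -/
def Contains (s p : List ℕ) : Prop := ∃ t : List ℕ, t.Sublist s ∧ SameOrder t p

/-- The number of inversion sequences of length `n` that avoid `p`. -/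
noncomputable def avoidCount (p : List ℕ) (n : ℕ) : ℕ :=
  Set.ncard {s : List ℕ | s.length = n ∧ IsInv s ∧ ¬ Contains s p}

/-- Wilf-equivalence for inversion sequences. -/
def WilfEquiv (p q : List ℕ) : Prop := ∀ n : ℕ, avoidCount p n = avoidCount q n

/-- The maximum diagonal difference `max_i (σ_i - i + 1)`. -/
noncomputable def mdd (s : List ℕ) : ℤ :=
  sSup (Set.range fun i : Fin s.length => ((s[i] : ℕ) : ℤ) - (i : ℕ))

/-- The sequences which are inversion sequences and Cayley permutations and contain `p`. -/
def IP (p : List ℕ) : Set (List ℕ) := {t | IsInv t ∧ IsCayley t ∧ Contains t p}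

/-- `t` is a `p`-minimal inversion sequence: a minimal element of `IP p` for containment. -/
def IsMinInv (p t : List ℕ) : Prop := t ∈ IP p ∧ ∀ u ∈ IP p, Contains t u → u = t

/-- `c_j`: the number of `p`-minimal inversion sequences of length `|p| + mdd p + j`. -/
noncomputable def isbtEntry (p : List ℕ) (j : ℕ) : ℕ :=
  Set.ncard {t : List ℕ | IsMinInv p t ∧ (t.length : ℤ) = p.length + mdd p + j}

/-- The inversion sequence basis type `(c_0, ..., c_m)`, `m = mdd p`. -/
noncomputable def ISBT (p : List ℕ) : List ℕ :=
  (List.range ((mdd p).toNat + 1)).map (isbtEntry p)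

end InvSeqPat
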