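import Pool.Agent.helper45.WI.Std

/-! Fast Boolean tests for kernel evaluation. -/

namespace InvSeqPat

/-- Pruned search: `srch P [] s` is true iff some subsequence of `s` satisfies the predicates in
`P` one after the other; a predicate sees the letters chosen before it (latest first). -/
def srch : List (List ℕ → ℕ → Bool) → List ℕ → List ℕ → Bool
  | [], _, _ => true
  | _ :: _, _, [] => false
  | c :: cs, env, x :: xs => (c env x && srch cs (x :: env) xs) || srch (c :: cs) env xs

/-- The predicates hold along `t`. -/
def okP : List (List ℕ → ℕ → Bool) → List ℕ → List ℕ → Prop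
  | [], _, [] => True
  | [], _, _ :: _ => False
  | _ :: _, _, [] => False
  | c :: cs, env, x :: t => c env x = true ∧ okP cs (x :: env) t

theorem srch_iff (s : List ℕ) : ∀ (P : List (List ℕ → ℕ → Bool)) (env : List ℕ),
    srch P env s = true ↔ ∃ t : List ℕ, t.Sublist s ∧ okP P env t := by
  induction s with
  | nil =>
    intro P env
    cases P with
    | nil => simp [srch, okP]
    | cons c cs =>
      simp [srch, okP]
  | cons x xs ih =>
    intro P env
    cases P with
    | nil =>
      simp only [srch, true_iff]
      exact ⟨[], by simp, trivial⟩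
    | cons c cs =>
      rw [srch, Bool.or_eq_true, Bool.and_eq_true, ih, ih]
      constructor
      · rintro (⟨h1, t, h2, h3⟩ | ⟨t, h2, h3⟩)
        · exact ⟨x :: t, h2.cons_cons x, h1, h3⟩
        · exact ⟨t, h2.cons x, h3⟩
      · rintro ⟨t, h2, h3⟩
        cases t with
        | nil => exact absurd h3 (by simp [okP])
        | cons y t =>
          rcases List.sublist_cons_iff.1 h2 with h | ⟨r, hr, hs⟩
          · exact Or.inr ⟨_, h, h3⟩
          · obtain ⟨rfl, rfl⟩ := List.cons.inj hr
            exact Or.inl ⟨h3.1, t, hs, h3.2⟩

/-- `lo < x < hi`. -/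
def btw (lo x hi : ℕ) : Bool := Nat.blt lo x && Nat.blt x hi

/-- Common tail of the two lists of predicates: letters `6, 3, 4, 5` after `2`. -/
def Ptail : List (List ℕ → ℕ → Bool) :=
  [fun env x => match env with
      | two :: _ => Nat.blt two x
      | [] => false,
   fun env x => match env with
      | six :: two :: _ => btw two x six
      | _ => false,
   fun env x => match env with
      | three :: six :: _ => btw three x six
      | _ => false,
   fun env x => match env with
      | four :: _ :: six :: _ => btw four x six
      | _ => false]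

/-- Predicates for `rho = 1 0 1 2 6 3 4 5`. -/
def Prho : List (List ℕ → ℕ → Bool) :=
  (fun _ _ => true) ::
  (fun env x => match env with
      | one :: _ => Nat.blt x one
      | [] => false) ::
  (fun env x => match env with
      | _ :: one :: _ => Nat.beq x one
      | _ => false) ::
  (fun env x => match env with
      | one :: _ => Nat.blt one x
      | [] => false) :: Ptail

/-- Predicates for `rho' = 1 1 0 2 6 3 4 5`. -/
def Prho' : List (List ℕ → ℕ → Bool) :=
  (fun _ _ => true) ::
  (fun env x => match env with
      | one :: _ => Nat.beq x one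
      | [] => false) ::
  (fun env x => match env with
      | one :: _ => Nat.blt x one
      | [] => false) ::
  (fun env x => match env with
      | _ :: one :: _ => Nat.blt one x
      | _ => false) :: Ptail

theorem blt_iff {a b : ℕ} : Nat.blt a b = true ↔ a < b := by
  rw [Nat.blt, Nat.ble_eq]; exact Nat.succ_le_iff

theorem btw_iff {a b c : ℕ} : btw a b c = true ↔ a < b ∧ b < c := by
  rw [btw, Bool.and_eq_true, blt_iff, blt_iff]

theorem okP_rho {t : List ℕ} : okP Prho [] t ↔ SameOrder t rho := by
  constructor
  · intro h
    match t, h with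
    | [a, b, c, d, e, f, g, k], h =>
      simp only [Prho, Ptail, okP, blt_iff, btw_iff, Nat.beq_eq, and_true, true_and] at h
      obtain ⟨h1, h2, h3, h4, h5, h6, h7⟩ := h
      refine ⟨rfl, fun i j hi hj hi' hj' => ?_⟩
      simp only [List.length_cons, List.length_nil] at hi hj
      interval_cases i <;> interval_cases j <;> simp [rho] <;> omega
  · rintro ⟨hl, hord⟩
    match t, hl, hord with
    | [a, b, c, d, e, f, g, k], hl, hord =>
      have e1 := hord 1 0 (by simp) (by simp) (by simp [rho]) (by simp [rho])
      have e2 := hord 0 2 (by simp) (by simp) (by simp [rho]) (by simp [rho])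
      have e3 := hord 2 0 (by simp) (by simp) (by simp [rho]) (by simp [rho])
      have e4 := hord 2 3 (by simp) (by simp) (by simp [rho]) (by simp [rho])
      have e5 := hord 3 4 (by simp) (by simp) (by simp [rho]) (by simp [rho])
      have e6 := hord 3 5 (by simp) (by simp) (by simp [rho]) (by simp [rho])
      have e7 := hord 5 4 (by simp) (by simp) (by simp [rho]) (by simp [rho])
      have e8 := hord 5 6 (by simp) (by simp) (by simp [rho]) (by simp [rho])
      have e9 := hord 6 4 (by simp) (by simp) (by simp [rho]) (by simp [rho])
      have e10 := hord 6 7 (by simp) (by simp) (by simp [rho]) (by simp [rho])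
      have e11 := hord 7 4 (by simp) (by simp) (by simp [rho]) (by simp [rho])
      simp [rho] at e1 e2 e3 e4 e5 e6 e7 e8 e9 e10 e11
      simp only [Prho, Ptail, okP, blt_iff, btw_iff, Nat.beq_eq, and_true, true_and]
      refine ⟨?_, ?_, ?_, ?_, ?_, ?_, ?_⟩ <;> omega

theorem okP_rho' {t : List ℕ} : okP Prho' [] t ↔ SameOrder t rho' := by
  constructor
  · intro h
    match t, h with
    | [a, b, c, d, e, f, g, k], h =>
      simp only [Prho', Ptail, okP, blt_iff, btw_iff, Nat.beq_eq, and_true, true_and] at h
      obtain ⟨h1, h2, h3, h4, h5, h6, h7⟩ := h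
      refine ⟨rfl, fun i j hi hj hi' hj' => ?_⟩
      simp only [List.length_cons, List.length_nil] at hi hj
      interval_cases i <;> interval_cases j <;> simp [rho'] <;> omega
  · rintro ⟨hl, hord⟩
    match t, hl, hord with
    | [a, b, c, d, e, f, g, k], hl, hord =>
      have e1 := hord 1 0 (by simp) (by simp) (by simp [rho']) (by simp [rho'])
      have e2 := hord 0 1 (by simp) (by simp) (by simp [rho']) (by simp [rho'])
      have e3 := hord 2 1 (by simp) (by simp) (by simp [rho']) (by simp [rho'])
      have e4 := hord 1 3 (by simp) (by simp) (by simp [rho']) (by simp [rho'])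
      have e5 := hord 3 4 (by simp) (by simp) (by simp [rho']) (by simp [rho'])
      have e6 := hord 3 5 (by simp) (by simp) (by simp [rho']) (by simp [rho'])
      have e7 := hord 5 4 (by simp) (by simp) (by simp [rho']) (by simp [rho'])
      have e8 := hord 5 6 (by simp) (by simp) (by simp [rho']) (by simp [rho'])
      have e9 := hord 6 4 (by simp) (by simp) (by simp [rho']) (by simp [rho'])
      have e10 := hord 6 7 (by simp) (by simp) (by simp [rho']) (by simp [rho'])
      have e11 := hord 7 4 (by simp) (by simp) (by simp [rho']) (by simp [rho'])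
      simp [rho'] at e1 e2 e3 e4 e5 e6 e7 e8 e9 e10 e11
      simp only [Prho', Ptail, okP, blt_iff, btw_iff, Nat.beq_eq, and_true, true_and]
      refine ⟨?_, ?_, ?_, ?_, ?_, ?_, ?_⟩ <;> omega

theorem srch_rho {s : List ℕ} : srch Prho [] s = true ↔ Contains s rho := by
  rw [srch_iff]
  unfold Contains
  simp only [okP_rho]

theorem srch_rho' {s : List ℕ} : srch Prho' [] s = true ↔ Contains s rho' := by
  rw [srch_iff]
  unfold Contains
  simp only [okP_rho']

/-- Containment does not see standardisation. -/
theorem contains_std_iff {s p : List ℕ} : Contains (std s) p ↔ Contains s p := by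
  have key : ∀ {a b : List ℕ}, SameOrder a b → Contains a p → Contains b p := by
    rintro a b hab ⟨t, ht, ho⟩
    rw [List.sublist_iff_exists_fin_orderEmbedding_get_eq] at ht
    obtain ⟨f, hf⟩ := ht
    have hg : StrictMono (fun i : Fin t.length => (Fin.cast hab.1 (f i))) := by
      intro i j hij
      have := f.strictMono hij
      rw [Fin.lt_def] at this ⊢
      simpa using this
    refine ⟨List.ofFn (fun i : Fin t.length => b.get (Fin.cast hab.1 (f i))), ?_, ?_⟩
    · rw [List.sublist_iff_exists_fin_orderEmbedding_get_eq]
      refine ⟨(Fin.castOrderIso (List.length_ofFn)).toOrderEmbedding.trans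
        (OrderEmbedding.ofStrictMono _ hg), ?_⟩
      intro ix
      simp
      rfl
    · apply SameOrder.trans _ ho
      refine ⟨by simp, fun i j hi hj hi' hj' => ?_⟩
      simp only [List.getElem_ofFn]
      have e1 := hf ⟨i, hi'⟩
      have e2 := hf ⟨j, hj'⟩
      rw [List.get_eq_getElem, List.get_eq_getElem] at e1 e2
      simp only at e1 e2
      rw [e1, e2]
      exact (hab.2 _ _ _ _ _ _).symm
  exact ⟨key (sameOrder_std s).symm, key (sameOrder_std s)⟩

/-- The values smaller than `9` that do not occur in `s`. -/
def missF (s : List ℕ) : List ℕ := (List.range 9).filter (fun v => !(s.any (Nat.beq v)))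

/-- Fast standardisation (for letters at most `9`). -/
def stdF (s : List ℕ) : List ℕ :=
  (fun M => s.map (fun x => x - (M.countP (fun v => Nat.blt v x)))) (missF s)

theorem stdF_eq {s : List ℕ} (hs : ∀ x ∈ s, x ≤ 9) : stdF s = std s := by
  unfold stdF std
  apply List.map_congr_left
  intro x hx
  have hx9 := hs x hx
  rw [rk_eq_card]
  have h1 : (missF s).countP (fun v => Nat.blt v x) =
      ((Finset.range x).filter (fun v => v ∉ s)).card := by
    unfold missF
    rw [List.countP_filter, List.countP_eq_length_filter]
    have hnd : (List.filter (fun a => Nat.blt a x && !s.any (Nat.beq a)) (List.range 9)).Nodup :=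
      List.Nodup.filter _ List.nodup_range
    rw [← List.toFinset_card_of_nodup hnd]
    congr 1
    ext a
    simp only [List.mem_toFinset, List.mem_filter, List.mem_range, Bool.and_eq_true, blt_iff,
      Bool.not_eq_true', Finset.mem_filter, Finset.mem_range]
    constructor
    · rintro ⟨h1, h2, h3⟩
      refine ⟨h2, fun h4 => ?_⟩
      rw [List.any_eq_false] at h3
      exact h3 a h4 (by simp)
    · rintro ⟨h1, h2⟩
      refine ⟨by omega, h1, ?_⟩
      rw [List.any_eq_false]
      intro b hb
      rw [Nat.beq_eq]
      rintro rfl
      exact h2 hb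
  have h2 : (s.toFinset.filter (· < x)).card = ((Finset.range x).filter (fun v => v ∈ s)).card := by
    congr 1
    ext a
    simp [and_comm]
  have h3 := Finset.card_filter_add_card_filter_not (s := Finset.range x) (fun v => v ∈ s)
  rw [Finset.card_range] at h3
  rw [h1, h2]
  omega

end InvSeqPat
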