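import Pool.Agent.helper45.WI.Defs

/-! Standardisation and Boolean tests (computable, for kernel evaluation). -/

namespace InvSeqPat

/-- The number of distinct values of `l` that are smaller than `x`. -/
def rk (l : List ℕ) (x : ℕ) : ℕ := ((l.filter (fun y => decide (y < x))).dedup).length

/-- Standardisation: the Cayley permutation in the same relative order as `l`. -/
def std (l : List ℕ) : List ℕ := l.map (rk l)

theorem SameOrder.symm {a b : List ℕ} (h : SameOrder a b) : SameOrder b a :=
  ⟨h.1.symm, fun i j hi hj hi' hj' => (h.2 i j hi' hj' hi hj).symm⟩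

theorem SameOrder.trans {a b c : List ℕ} (h : SameOrder a b) (h' : SameOrder b c) :
    SameOrder a c := by
  refine ⟨h.1.trans h'.1, fun i j hi hj hi' hj' => ?_⟩
  have h1 : i < b.length := h.1 ▸ hi
  have h2 : j < b.length := h.1 ▸ hj
  exact (h.2 i j hi hj h1 h2).trans (h'.2 i j h1 h2 hi' hj')

theorem rk_eq_card (l : List ℕ) (x : ℕ) : rk l x = (l.toFinset.filter (· < x)).card := by
  unfold rk
  rw [← List.card_toFinset, List.toFinset_filter]
  congr 1
  ext a
  simp

theorem rk_mono (l : List ℕ) {x y : ℕ} (h : x ≤ y) : rk l x ≤ rk l y := by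
  rw [rk_eq_card, rk_eq_card]
  apply Finset.card_le_card
  intro a ha
  rw [Finset.mem_filter] at ha ⊢
  exact ⟨ha.1, lt_of_lt_of_le ha.2 h⟩

theorem rk_strict {l : List ℕ} {x y : ℕ} (hx : x ∈ l) (h : x < y) : rk l x < rk l y := by
  rw [rk_eq_card, rk_eq_card]
  apply Finset.card_lt_card
  rw [Finset.ssubset_iff_of_subset]
  · refine ⟨x, ?_, ?_⟩
    · rw [Finset.mem_filter]; exact ⟨List.mem_toFinset.2 hx, h⟩
    · rw [Finset.mem_filter]; exact fun h' => lt_irrefl _ h'.2
  · intro a ha
    rw [Finset.mem_filter] at ha ⊢
    exact ⟨ha.1, lt_trans ha.2 h⟩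

theorem rk_lt_iff {l : List ℕ} {x y : ℕ} (hx : x ∈ l) : rk l x < rk l y ↔ x < y := by
  constructor
  · intro h
    by_contra hc
    exact absurd (rk_mono l (not_lt.1 hc)) (not_le.2 h)
  · exact rk_strict hx

theorem length_std (l : List ℕ) : (std l).length = l.length := by
  unfold std; rw [List.length_map]

theorem getElem_std (l : List ℕ) (i : ℕ) (h : i < (std l).length) :
    (std l)[i] = rk l (l[i]'(by rw [length_std] at h; exact h)) := by
  unfold std; rw [List.getElem_map]

theorem sameOrder_std (l : List ℕ) : SameOrder l (std l) := by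
  refine ⟨(length_std l).symm, fun i j hi hj hi' hj' => ?_⟩
  rw [getElem_std, getElem_std]
  exact (rk_lt_iff (List.getElem_mem hi)).symm

theorem isCayley_std (l : List ℕ) : IsCayley (std l) := by
  intro x hx y hy
  unfold std at hx ⊢
  rw [List.mem_map] at hx ⊢
  obtain ⟨a, ha, rfl⟩ := hx
  have hex : ∃ b, b ∈ l ∧ y ≤ rk l b := ⟨a, ha, hy.le⟩
  classical
  obtain ⟨hb, hyb⟩ := Nat.find_spec hex
  refine ⟨Nat.find hex, hb, ?_⟩
  by_contra hne
  have hlt : y < rk l (Nat.find hex) := lt_of_le_of_ne hyb (Ne.symm hne)
  have hpos : 0 < rk l (Nat.find hex) := lt_of_le_of_lt (Nat.zero_le _) hlt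
  rw [rk_eq_card, Finset.card_pos] at hpos
  set b := Nat.find hex with hbdef
  have hm := Finset.max'_mem _ hpos
  set m := Finset.max' _ hpos with hmdef
  rw [Finset.mem_filter] at hm
  have hsub : l.toFinset.filter (· < b) ⊆ insert m (l.toFinset.filter (· < m)) := by
    intro s hs
    rw [Finset.mem_insert, Finset.mem_filter]
    have hle : s ≤ m := Finset.le_max' _ s hs
    rcases eq_or_lt_of_le hle with h | h
    · exact Or.inl h
    · exact Or.inr ⟨(Finset.mem_filter.1 hs).1, h⟩
  have hcard : rk l b ≤ rk l m + 1 := by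
    rw [rk_eq_card, rk_eq_card]
    exact (Finset.card_le_card hsub).trans (Finset.card_insert_le _ _)
  have : ¬ (m ∈ l ∧ y ≤ rk l m) := Nat.find_min hex hm.2
  exact this ⟨List.mem_toFinset.1 hm.1, by omega⟩

/-- Two Cayley permutations in the same relative order are equal. -/
theorem eq_of_sameOrder {a b : List ℕ} (h : SameOrder a b) (ha : IsCayley a) (hb : IsCayley b) :
    a = b := by
  have key : ∀ (n : ℕ), ∀ (i : ℕ) (hi : i < a.length) (hi' : i < b.length),
      (a[i] = n ↔ b[i] = n) := by
    intro n
    induction n using Nat.strong_induction_on with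
    | _ n ih =>
      intro i hi hi'
      constructor
      · intro hn
        rcases lt_trichotomy b[i] n with h1 | h1 | h1
        · have := (ih b[i] h1 i hi hi').2 rfl
          omega
        · exact h1
        · obtain ⟨j, hj, hjn⟩ := List.getElem_of_mem (hb b[i] (List.getElem_mem hi') n h1)
          have hj' : j < a.length := h.1 ▸ hj
          have h2 : a[j] < a[i] := (h.2 j i hj' hi hj hi').2 (by rw [hjn]; exact h1)
          have h3 := (ih a[j] (by omega) j hj' hj).1 rfl
          omega
      · intro hn
        rcases lt_trichotomy a[i] n with h1 | h1 | h1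
        · have := (ih a[i] h1 i hi hi').1 rfl
          omega
        · exact h1
        · obtain ⟨j, hj, hjn⟩ := List.getElem_of_mem (ha a[i] (List.getElem_mem hi) n h1)
          have hj' : j < b.length := h.1 ▸ hj
          have h2 : b[j] < b[i] := (h.2 j i hj hi hj' hi').1 (by rw [hjn]; exact h1)
          have h3 := (ih b[j] (by omega) j hj hj').2 rfl
          omega
  apply List.ext_getElem h.1
  intro i hi hi'
  exact ((key a[i] i hi hi').1 rfl).symm

theorem std_eq_of_sameOrder {t u : List ℕ} (h : SameOrder t u) (hu : IsCayley u) : std t = u :=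
  eq_of_sameOrder ((sameOrder_std t).symm.trans h) (isCayley_std t) hu

/-- Containment between Cayley permutations through standardisation. -/
theorem contains_iff_std {t u : List ℕ} (hu : IsCayley u) :
    Contains t u ↔ ∃ s : List ℕ, s.Sublist t ∧ std s = u := by
  constructor
  · rintro ⟨s, hs, ho⟩
    exact ⟨s, hs, std_eq_of_sameOrder ho hu⟩
  · rintro ⟨s, hs, rfl⟩
    exact ⟨s, hs, sameOrder_std s⟩

/-- Boolean test for containment of a Cayley permutation. -/
def hasPat (s p : List ℕ) : Bool := (s.sublistsLen p.length).any (fun t => std t == p)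

theorem hasPat_iff {s p : List ℕ} (hp : IsCayley p) : hasPat s p = true ↔ Contains s p := by
  unfold hasPat
  rw [List.any_eq_true]
  constructor
  · rintro ⟨t, ht, he⟩
    rw [List.mem_sublistsLen] at ht
    have he' : std t = p := by simpa using he
    exact ⟨t, ht.1, he' ▸ sameOrder_std t⟩
  · rintro ⟨t, ht, ho⟩
    refine ⟨t, List.mem_sublistsLen.2 ⟨ht, ho.1⟩, ?_⟩
    simpa using std_eq_of_sameOrder ho hp

/-- Boolean test: the `i`-th entry is at most `m + i`. -/
def isInvB : ℕ → List ℕ → Bool
  | _, [] => true
  | m, x :: xs => decide (x ≤ m) && isInvB (m + 1) xs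

theorem isInvB_iff' (s : List ℕ) : ∀ m : ℕ, isInvB m s = true ↔
    ∀ (i : ℕ) (h : i < s.length), s[i] ≤ m + i := by
  induction s with
  | nil => intro m; simp [isInvB]
  | cons x xs ih =>
    intro m
    rw [isInvB, Bool.and_eq_true, decide_eq_true_iff, ih (m + 1)]
    constructor
    · rintro ⟨h1, h2⟩ i hi
      cases i with
      | zero => simpa using h1
      | succ i =>
        have := h2 i (by simpa using hi)
        rw [List.getElem_cons_succ]
        omega
    · intro h
      have h0 := h 0 (by simp)
      rw [List.getElem_cons_zero] at h0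
      refine ⟨by omega, fun i hi => ?_⟩
      have := h (i + 1) (by simpa using hi)
      rw [List.getElem_cons_succ] at this
      omega

theorem isInvB_iff {s : List ℕ} : isInvB 0 s = true ↔ IsInv s := by
  rw [isInvB_iff']
  unfold IsInv
  simp only [Nat.zero_add]

/-- Boolean test for Cayley permutations. -/
def isCayleyB (s : List ℕ) : Bool := s.all (fun x => (List.range x).all (fun y => s.contains y))

theorem isCayleyB_iff {s : List ℕ} : isCayleyB s = true ↔ IsCayley s := by
  unfold isCayleyB IsCayley
  simp [List.all_eq_true]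

/-- All inversion sequences of length `n`. -/
def invSeqs : ℕ → List (List ℕ)
  | 0 => [[]]
  | n + 1 => (invSeqs n).flatMap (fun s => (List.range (n + 1)).map (fun x => s ++ [x]))

theorem isInv_append_singleton {s : List ℕ} {x : ℕ} :
    IsInv (s ++ [x]) ↔ IsInv s ∧ x ≤ s.length := by
  constructor
  · intro h
    constructor
    · intro i hi
      have := h i (by rw [List.length_append]; omega)
      rw [List.getElem_append_left hi] at this
      exact this
    · have := h s.length (by simp)
      rw [List.getElem_append_right (le_refl _)] at this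
      simpa using this
  · rintro ⟨h1, h2⟩ i hi
    rw [List.length_append, List.length_singleton] at hi
    rcases Nat.lt_or_ge i s.length with h | h
    · rw [List.getElem_append_left h]; exact h1 i h
    · have hi' : i = s.length := by omega
      subst hi'
      rw [List.getElem_append_right (le_refl _)]
      simpa using h2

theorem mem_invSeqs {n : ℕ} {s : List ℕ} : s ∈ invSeqs n ↔ s.length = n ∧ IsInv s := by
  induction n generalizing s with
  | zero =>
    rw [invSeqs, List.mem_singleton]
    constructor
    · rintro rfl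
      exact ⟨rfl, fun i hi => absurd hi (by simp)⟩
    · rintro ⟨h, -⟩
      exact List.eq_nil_of_length_eq_zero h
  | succ n ih =>
    rw [invSeqs, List.mem_flatMap]
    constructor
    · rintro ⟨t, ht, hs⟩
      rw [List.mem_map] at hs
      obtain ⟨x, hx, rfl⟩ := hs
      rw [ih] at ht
      rw [List.mem_range] at hx
      refine ⟨by simp [ht.1], isInv_append_singleton.2 ⟨ht.2, by omega⟩⟩
    · rintro ⟨hl, hi⟩
      have hne : s ≠ [] := by rintro rfl; simp at hl
      obtain ⟨t, x, rfl⟩ : ∃ t x, s = t ++ [x] :=
        ⟨s.dropLast, s.getLast hne, (List.dropLast_append_getLast hne).symm⟩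
      rw [isInv_append_singleton] at hi
      have htl : t.length = n := by simpa using hl
      refine ⟨t, ih.2 ⟨htl, hi.1⟩, ?_⟩
      rw [List.mem_map]
      exact ⟨x, List.mem_range.2 (by omega), rfl⟩

/-- The two patterns. -/
def rho : List ℕ := [1, 0, 1, 2, 6, 3, 4, 5]
def rho' : List ℕ := [1, 1, 0, 2, 6, 3, 4, 5]

theorem isPattern_rho : IsPattern rho :=
  ⟨by decide, isCayleyB_iff.1 (by decide)⟩

theorem isPattern_rho' : IsPattern rho' :=
  ⟨by decide, isCayleyB_iff.1 (by decide)⟩

theorem mdd_rho : mdd rho = 2 := by
  unfold mdd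
  apply IsGreatest.csSup_eq
  constructor
  · exact ⟨⟨4, by decide⟩, by decide⟩
  · rintro _ ⟨i, rfl⟩
    revert i
    decide

theorem mdd_rho' : mdd rho' = 2 := by
  unfold mdd
  apply IsGreatest.csSup_eq
  constructor
  · exact ⟨⟨4, by decide⟩, by decide⟩
  · rintro _ ⟨i, rfl⟩
    revert i
    decide

/-- Elements of `IP rho`, `IP rho'` have length at least `10`. -/
theorem length_ge_of_mem {p t : List ℕ} (hp : p = rho ∨ p = rho') (ht : t ∈ IP p) :
    10 ≤ t.length := by
  obtain ⟨hinv, -, s, hs, hlen, hord⟩ := ht
  have hpl : p.length = 8 := by rcases hp with rfl | rfl <;> rfl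
  have hsl : s.length = 8 := hlen.trans hpl
  -- `s[4]` is at least 6
  have h6 : 6 ≤ s[4] := by
    rcases hp with rfl | rfl
    · have a1 := (hord 1 2 (by omega) (by omega) (by decide) (by decide)).2 (by decide)
      have a2 := (hord 2 3 (by omega) (by omega) (by decide) (by decide)).2 (by decide)
      have a3 := (hord 3 5 (by omega) (by omega) (by decide) (by decide)).2 (by decide)
      have a4 := (hord 5 6 (by omega) (by omega) (by decide) (by decide)).2 (by decide)
      have a5 := (hord 6 7 (by omega) (by omega) (by decide) (by decide)).2 (by decide)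
      have a6 := (hord 7 4 (by omega) (by omega) (by decide) (by decide)).2 (by decide)
      omega
    · have a1 := (hord 2 1 (by omega) (by omega) (by decide) (by decide)).2 (by decide)
      have a2 := (hord 1 3 (by omega) (by omega) (by decide) (by decide)).2 (by decide)
      have a3 := (hord 3 5 (by omega) (by omega) (by decide) (by decide)).2 (by decide)
      have a4 := (hord 5 6 (by omega) (by omega) (by decide) (by decide)).2 (by decide)
      have a5 := (hord 6 7 (by omega) (by omega) (by decide) (by decide)).2 (by decide)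
      have a6 := (hord 7 4 (by omega) (by omega) (by decide) (by decide)).2 (by decide)
      omega
  rw [List.sublist_iff_exists_fin_orderEmbedding_get_eq] at hs
  obtain ⟨f, hf⟩ := hs
  have m4 := f.strictMono (show (⟨4, by omega⟩ : Fin s.length) < ⟨5, by omega⟩ by
    rw [Fin.mk_lt_mk]; omega)
  have m5 := f.strictMono (show (⟨5, by omega⟩ : Fin s.length) < ⟨6, by omega⟩ by
    rw [Fin.mk_lt_mk]; omega)
  have m6 := f.strictMono (show (⟨6, by omega⟩ : Fin s.length) < ⟨7, by omega⟩ by
    rw [Fin.mk_lt_mk]; omega)
  have hle := hinv (f ⟨4, by omega⟩) (f ⟨4, by omega⟩).2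
  have hget := hf ⟨4, by omega⟩
  rw [List.get_eq_getElem, List.get_eq_getElem] at hget
  have h7 := (f ⟨7, by omega⟩).2
  rw [Fin.lt_def] at m4 m5 m6
  simp only at hget
  omega

end InvSeqPat
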