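import Pool.Agent.helper45.WI.Bij

/-! Wilf-equivalence of `101 ⊕ β` and `110 ⊕ β`. -/

namespace InvSeqPat

variable {β : List ℕ}

/-- Rows `≥ j` avoid `wQ`, rows `< j` avoid `wP`. -/
def SS (β : List ℕ) (n j : ℕ) : Set (List ℕ) :=
  {s | s.length = n ∧ IsInv s ∧ (∀ v, j ≤ v → NoW wQ β v s) ∧ (∀ v, v < j → NoW wP β v s)}

theorem bijOn_SS (n k : ℕ) : Set.BijOn (tr β (F1 k) k) (SS β n (k + 1)) (SS β n k) := by
  have h1 := goodF1 k
  have h2 := goodF2 k
  refine Set.InvOn.bijOn (f' := tr β (F2 k) k) ⟨?_, ?_⟩ ?_ ?_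
  · rintro s ⟨-, -, -, hP⟩
    rw [tr_tr h2 h1]
    exact (NoW_P_iff s).1 (hP k (Nat.lt_succ_self k))
  · rintro s ⟨-, -, hQ, -⟩
    rw [tr_tr h1 h2]
    exact (NoW_Q_iff s).1 (hQ k le_rfl)
  · rintro s ⟨hl, hi, hQ, hP⟩
    refine ⟨by rw [length_tr, hl], isInv_tr h1 hi, ?_, ?_⟩
    · intro v hv
      rcases Nat.eq_or_lt_of_le hv with rfl | hv
      · rw [NoW_Q_iff, tr_tr h1 h1]
      · exact (NoW_tr goodW_Q h1 (by omega) s).2 (hQ v hv)
    · intro v hv
      exact (NoW_tr goodW_P h1 (by omega) s).2 (hP v (by omega))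
  · rintro s ⟨hl, hi, hQ, hP⟩
    refine ⟨by rw [length_tr, hl], isInv_tr h2 hi, ?_, ?_⟩
    · intro v hv
      exact (NoW_tr goodW_Q h2 (by omega) s).2 (hQ v (by omega))
    · intro v hv
      rcases Nat.eq_or_lt_of_le (Nat.le_of_lt_succ hv) with rfl | hv
      · rw [NoW_P_iff, tr_tr h2 h2]
      · exact (NoW_tr goodW_P h2 (by omega) s).2 (hP v hv)

theorem ncard_SS_succ (n k : ℕ) : (SS β n (k + 1)).ncard = (SS β n k).ncard := by
  have h := bijOn_SS (β := β) n k
  rw [← h.image_eq, h.injOn.ncard_image]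

theorem ncard_SS (n j : ℕ) : (SS β n j).ncard = (SS β n 0).ncard := by
  induction j with
  | zero => rfl
  | succ j ih => rw [ncard_SS_succ, ih]

/-- Rows `v ≥ n` are empty. -/
theorem NoW_of_ge {w : ℕ → ℕ → List ℕ} (hw : GoodW w) {s : List ℕ} (hs : IsInv s) {v : ℕ}
    (hv : s.length ≤ v) : NoW w β v s := by
  intro A B u hsAB _ _ hsub
  have h1 : v ∈ s := by
    rw [hsAB]
    exact List.mem_append_left _ (hsub.subset (hw.mem v u))
  obtain ⟨i, hi, hiv⟩ := List.mem_iff_getElem.1 h1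
  have := hs i hi
  omega

theorem sameOrder_cons {a a' : ℕ} {l l' : List ℕ} :
    SameOrder (a :: l) (a' :: l') ↔ SameOrder l l' ∧
      ∀ (i : ℕ) (hi : i < l.length) (hi' : i < l'.length),
        (a < l[i] ↔ a' < l'[i]) ∧ (l[i] < a ↔ l'[i] < a') := by
  constructor
  · intro h
    refine ⟨⟨by simpa using h.1, fun i j hi hj hi' hj' => ?_⟩, fun i hi hi' => ⟨?_, ?_⟩⟩
    · have := h.2 (i + 1) (j + 1) (by simpa using hi) (by simpa using hj) (by simpa using hi')
        (by simpa using hj')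
      simpa only [List.getElem_cons_succ] using this
    · have := h.2 0 (i + 1) (by simp) (by simpa using hi) (by simp) (by simpa using hi')
      simpa only [List.getElem_cons_succ, List.getElem_cons_zero] using this
    · have := h.2 (i + 1) 0 (by simpa using hi) (by simp) (by simpa using hi') (by simp)
      simpa only [List.getElem_cons_succ, List.getElem_cons_zero] using this
  · rintro ⟨h1, h2⟩
    refine ⟨by simpa using h1.1, fun i j hi hj hi' hj' => ?_⟩
    rcases i with _ | i <;> rcases j with _ | j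
    · simp
    · simp only [List.getElem_cons_succ, List.getElem_cons_zero]
      exact (h2 j (by simpa using hj) (by simpa using hj')).1
    · simp only [List.getElem_cons_succ, List.getElem_cons_zero]
      exact (h2 i (by simpa using hi) (by simpa using hi')).2
    · simp only [List.getElem_cons_succ]
      exact h1.2 i j (by simpa using hi) (by simpa using hj) (by simpa using hi')
        (by simpa using hj')

theorem sameOrder_shift {b β : List ℕ} : SameOrder b (β.map (· + 2)) ↔ SameOrder b β := by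
  unfold SameOrder
  constructor
  · rintro ⟨h1, h2⟩
    refine ⟨by simpa using h1, fun i j hi hj hi' hj' => ?_⟩
    have := h2 i j hi hj (by simpa using hi') (by simpa using hj')
    simpa using this
  · rintro ⟨h1, h2⟩
    refine ⟨by simpa using h1, fun i j hi hj hi' hj' => ?_⟩
    have := h2 i j hi hj (by simpa using hi') (by simpa using hj')
    simpa using this

/-- `b` is above `v`, of the same order as `β`. -/
theorem cond_tail {b β : List ℕ} {v c : ℕ} (hc : c < 2) (hb : ∀ x ∈ b, v < x)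
    (i : ℕ) (hi : i < b.length) (hi' : i < (β.map (· + 2)).length) {y : ℕ} (hy : y ≤ v) :
    (y < b[i] ↔ c < (β.map (· + 2))[i]) ∧ (b[i] < y ↔ (β.map (· + 2))[i] < c) := by
  have h1 : v < b[i] := hb _ (List.getElem_mem hi)
  simp only [List.getElem_map]
  omega

theorem sameOrder_wP {v u : ℕ} {b β : List ℕ} (hu : u < v) (hb : ∀ x ∈ b, v < x)
    (h : SameOrder b β) : SameOrder (wP v u ++ b) (wP 1 0 ++ β.map (· + 2)) := by
  have hs := sameOrder_shift.2 h
  show SameOrder (v :: u :: v :: b) (1 :: 0 :: 1 :: β.map (· + 2))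
  rw [sameOrder_cons, sameOrder_cons, sameOrder_cons]
  refine ⟨⟨⟨hs, fun i hi hi' => cond_tail (by omega) hb i hi hi' le_rfl⟩, fun i hi hi' => ?_⟩,
    fun i hi hi' => ?_⟩
  · rcases i with _ | i
    · simp; omega
    · simp only [List.getElem_cons_succ]
      exact cond_tail (by omega) hb i (by simpa using hi) (by simpa using hi') hu.le
  · rcases i with _ | _ | i
    · simp; omega
    · simp
    · simp only [List.getElem_cons_succ]
      exact cond_tail (by omega) hb i (by simpa using hi) (by simpa using hi') le_rfl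

theorem sameOrder_wQ {v u : ℕ} {b β : List ℕ} (hu : u < v) (hb : ∀ x ∈ b, v < x)
    (h : SameOrder b β) : SameOrder (wQ v u ++ b) (wQ 1 0 ++ β.map (· + 2)) := by
  have hs := sameOrder_shift.2 h
  show SameOrder (v :: v :: u :: b) (1 :: 1 :: 0 :: β.map (· + 2))
  rw [sameOrder_cons, sameOrder_cons, sameOrder_cons]
  refine ⟨⟨⟨hs, fun i hi hi' => cond_tail (by omega) hb i hi hi' hu.le⟩, fun i hi hi' => ?_⟩,
    fun i hi hi' => ?_⟩
  · rcases i with _ | i
    · simp; omega
    · simp only [List.getElem_cons_succ]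
      exact cond_tail (by omega) hb i (by simpa using hi) (by simpa using hi') le_rfl
  · rcases i with _ | _ | i
    · simp
    · simp; omega
    · simp only [List.getElem_cons_succ]
      exact cond_tail (by omega) hb i (by simpa using hi) (by simpa using hi') le_rfl

theorem exists_of_wP {t β : List ℕ} (h : SameOrder t (wP 1 0 ++ β.map (· + 2))) :
    ∃ v u b, t = wP v u ++ b ∧ u < v ∧ (∀ x ∈ b, v < x) ∧ SameOrder b β := by
  have hlen := h.1
  match t, h, hlen with
  | [], h, hlen => simp [wP] at hlen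
  | [_], h, hlen => simp [wP] at hlen
  | [_, _], h, hlen => simp [wP] at hlen
  | a :: b :: c :: t', h, hlen =>
    have h' : SameOrder (a :: b :: c :: t') (1 :: 0 :: 1 :: β.map (· + 2)) := h
    rw [sameOrder_cons, sameOrder_cons, sameOrder_cons] at h'
    obtain ⟨⟨⟨h1, h2⟩, h3⟩, h4⟩ := h'
    have h5 := h4 0 (by simp) (by simp)
    have h6 := h4 1 (by simp) (by simp)
    simp only [List.getElem_cons_zero, List.getElem_cons_succ] at h5 h6
    have hac : a = c := by omega
    subst hac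
    refine ⟨a, b, t', rfl, by omega, ?_, sameOrder_shift.1 h1⟩
    intro x hx
    obtain ⟨i, hi, rfl⟩ := List.mem_iff_getElem.1 hx
    have hi' : i < (β.map (· + 2)).length := by rw [← h1.1]; exact hi
    have := (h2 i hi hi').1
    simp only [List.getElem_map] at this
    omega

theorem exists_of_wQ {t β : List ℕ} (h : SameOrder t (wQ 1 0 ++ β.map (· + 2))) :
    ∃ v u b, t = wQ v u ++ b ∧ u < v ∧ (∀ x ∈ b, v < x) ∧ SameOrder b β := by
  have hlen := h.1
  match t, h, hlen with
  | [], h, hlen => simp [wQ] at hlen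
  | [_], h, hlen => simp [wQ] at hlen
  | [_, _], h, hlen => simp [wQ] at hlen
  | a :: c :: b :: t', h, hlen =>
    have h' : SameOrder (a :: c :: b :: t') (1 :: 1 :: 0 :: β.map (· + 2)) := h
    rw [sameOrder_cons, sameOrder_cons, sameOrder_cons] at h'
    obtain ⟨⟨⟨h1, h2⟩, h3⟩, h4⟩ := h'
    have h5 := h4 0 (by simp) (by simp)
    have h6 := h4 1 (by simp) (by simp)
    simp only [List.getElem_cons_zero, List.getElem_cons_succ] at h5 h6
    have hac : a = c := by omega
    subst hac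
    refine ⟨a, b, t', rfl, by omega, ?_, sameOrder_shift.1 h1⟩
    intro x hx
    obtain ⟨i, hi, rfl⟩ := List.mem_iff_getElem.1 hx
    have hi' : i < (β.map (· + 2)).length := by rw [← h1.1]; exact hi
    have := (h4 (i + 2) (by simpa using hi) (by simpa using hi')).1
    simp only [List.getElem_map, List.getElem_cons_succ] at this
    omega

theorem contains_wP_iff {s β : List ℕ} :
    Contains s (wP 1 0 ++ β.map (· + 2)) ↔ ∃ v, ¬ NoW wP β v s := by
  constructor
  · rintro ⟨t, ht, ho⟩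
    obtain ⟨v, u, b, rfl, hu, hb, hβ⟩ := exists_of_wP ho
    obtain ⟨A, B, hAB, hA, hB⟩ := List.append_sublist_iff.1 ht
    exact ⟨v, fun H => H A B u hAB ⟨b, hB, hb, hβ⟩ hu hA⟩
  · rintro ⟨v, hv⟩
    unfold NoW at hv
    push Not at hv
    obtain ⟨A, B, u, hAB, ⟨b, hB, hb, hβ⟩, hu, hA⟩ := hv
    exact ⟨wP v u ++ b, by rw [hAB]; exact hA.append hB, sameOrder_wP hu hb hβ⟩

theorem contains_wQ_iff {s β : List ℕ} :
    Contains s (wQ 1 0 ++ β.map (· + 2)) ↔ ∃ v, ¬ NoW wQ β v s := by
  constructor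
  · rintro ⟨t, ht, ho⟩
    obtain ⟨v, u, b, rfl, hu, hb, hβ⟩ := exists_of_wQ ho
    obtain ⟨A, B, hAB, hA, hB⟩ := List.append_sublist_iff.1 ht
    exact ⟨v, fun H => H A B u hAB ⟨b, hB, hb, hβ⟩ hu hA⟩
  · rintro ⟨v, hv⟩
    unfold NoW at hv
    push Not at hv
    obtain ⟨A, B, u, hAB, ⟨b, hB, hb, hβ⟩, hu, hA⟩ := hv
    exact ⟨wQ v u ++ b, by rw [hAB]; exact hA.append hB, sameOrder_wQ hu hb hβ⟩

/-- For every `β`, the patterns `101 ⊕ β` and `110 ⊕ β` are Wilf-equivalent. -/
theorem wilfEquiv_sum (β : List ℕ) :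
    WilfEquiv ([1, 0, 1] ++ β.map (· + 2)) ([1, 1, 0] ++ β.map (· + 2)) := by
  intro n
  have hP : {s : List ℕ | s.length = n ∧ IsInv s ∧ ¬ Contains s ([1, 0, 1] ++ β.map (· + 2))} =
      SS β n n := by
    ext s
    have hc := contains_wP_iff (s := s) (β := β)
    change Contains s ([1, 0, 1] ++ β.map (· + 2)) ↔ _ at hc
    simp only [Set.mem_ofPred_eq, SS, hc, not_exists, not_not]
    constructor
    · rintro ⟨h1, h2, h3⟩
      exact ⟨h1, h2, fun v hv => NoW_of_ge goodW_Q h2 (by omega), fun v _ => h3 v⟩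
    · rintro ⟨h1, h2, h3, h4⟩
      refine ⟨h1, h2, fun v => ?_⟩
      rcases lt_or_ge v n with h | h
      · exact h4 v h
      · exact NoW_of_ge goodW_P h2 (by omega)
  have hQ : {s : List ℕ | s.length = n ∧ IsInv s ∧ ¬ Contains s ([1, 1, 0] ++ β.map (· + 2))} =
      SS β n 0 := by
    ext s
    have hc := contains_wQ_iff (s := s) (β := β)
    change Contains s ([1, 1, 0] ++ β.map (· + 2)) ↔ _ at hc
    simp only [Set.mem_ofPred_eq, SS, hc, not_exists, not_not]
    constructor
    · rintro ⟨h1, h2, h3⟩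
      exact ⟨h1, h2, fun v _ => h3 v, fun v hv => absurd hv (Nat.not_lt_zero v)⟩
    · rintro ⟨h1, h2, h3, h4⟩
      exact ⟨h1, h2, fun v => h3 v (Nat.zero_le v)⟩
  unfold avoidCount
  rw [hP, hQ, ncard_SS]

theorem wilfEquiv_pair :
    WilfEquiv [1, 0, 1, 2, 6, 3, 4, 5] [1, 1, 0, 2, 6, 3, 4, 5] :=
  wilfEquiv_sum [0, 4, 1, 2, 3]

end InvSeqPat
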